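import Pool.Agent.Helper54.T5g.S3Pr
import Pool.Agent.Helper30.T5g.BigQF
import Pool.Agent.Helper22.NEARg.Stat

/-!
# T5g: `Blk CaseSplitMid RpC`
-/

set_option autoImplicit false

namespace Pool.Agent.Helper54.T5g

open Finset Pool.Agent.Helper27.T4 Pool.Agent.Helper84.T5g Pool.Agent.Helper37.T5g
open Pool.Agent.Helper5.ET (mask bb era)
open Pool.Agent.Helper30.T5g (pz QF QT RT ez NL BP)
open Pool.Agent.Helper39.T5 Pool.Agent.Helper50.T5 Pool.Agent.Helper57.T5
open Pool.Agent.Helper3.T5 (MP)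
open Pool.Agent.Helper48.T5g (SplitP gS cT)
open Pool.Agent.Helper45.T5g (IsWinB OK)
open Pool.Agent.Helper22.SL

variable {m : Sq} {k : ℕ}

/-- a near pair across SPLIT -/
theorem splitEv_of {l' l : ℕ} (hm : m.Ok) (hl : l' ≤ l) (h0 : bb 0 ≤ mL m k l')
    (hk : kt m k ≤ era (mL m k l')) (hN : Near m k l' l) (hS : Split m k l' l) :
    SplitEv m k (mL m k l') (mL m k l) := by
  have h1 : sv m k (mL m k l') + 1 = sv m k (mL m k l) := hS.1
  rcases event_of_near hm hl h0 hk hN with h | h | h | h | h | h | h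
  · rw [h.sv_eq] at h1
    omega
  · rw [h.sv', h.sv] at h1
    omega
  · rw [h.sv', h.sv] at h1
    omega
  · rw [h.sv', h.sv] at h1
    omega
  · rw [h.sv', h.sv] at h1
    omega
  · exact h
  · rw [h.sv', h.sv] at h1
    omega

/-- the lower window is short -/
theorem Un_short {s l' l : ℕ} (hm : m.Ok) (h : SplitP m k s l' l)
    (hC : ∀ x, l' ≤ x → x ≤ ez m (sL m k l) l →
      NL m k x = RT m k (sL m k l) * Jn m k (sL m k l) x)
    (hD : 8 * SS m (sL m k l') ≤ l - l') :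
    Un m k l' * (16 * RT m k (bL m k l')) ≤ Un m k l := by
  have h1 := Pool.Agent.Helper30.T5g.NL_lower m k h.le
  have hez : l ≤ ez m (sL m k l) l := (Pool.Agent.Helper30.T5g.lt_ez hm _ l).le
  rw [hC l' le_rfl (h.le.trans hez), hC l h.le hez, mul_assoc] at h1
  have h2 := Nat.le_of_mul_le_mul_left h1 (Pool.Agent.Helper30.T5g.RT_pos m k (sL m k l))
  rw [h.s1] at h2
  have h3 : 16 * RT m k (bL m k l') ≤ (10 ^ 6) ^ (l - l') := by
    have e1 := Pool.Agent.Helper30.T5g.RT_le hm k (bL m k l')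
    have e2 : SS m (bL m k l') ≤ SS m (sL m k l') := SS_mono m (by
      rw [h.b', h.s']
      omega)
    have e3 := SS_pos m (sL m k l')
    calc 16 * RT m k (bL m k l') ≤ 10 ^ 6 * (10 ^ 6) ^ SS m (bL m k l') :=
          Nat.mul_le_mul (by norm_num) e1
      _ = (10 ^ 6) ^ (SS m (bL m k l') + 1) := (pow_succ' _ _).symm
      _ ≤ _ := Nat.pow_le_pow_right (by norm_num) (by omega)
  rw [h.Un_lower hm, h.Un_upper, h.rL_succ]
  calc Jn m k (s + 1) l' * LL (QQ m k (s + 1)) (rL m k l' + 1) * (16 * RT m k (bL m k l'))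
      ≤ Jn m k (s + 1) l' * LL (QQ m k (s + 1)) (rL m k l' + 1) * (10 ^ 6) ^ (l - l') :=
        Nat.mul_le_mul_left _ h3
    _ = (Jn m k (s + 1) l' * (10 ^ 6) ^ (l - l')) * LL (QQ m k (s + 1)) (rL m k l' + 1) := by ring
    _ ≤ _ := Nat.mul_le_mul_right _ h2

theorem aJ_le (m : Sq) (k s x : ℕ) (f : Fin 3) : aJ m k s x (Sum.inl f) ≤ x := by
  rw [aJ_inl]
  unfold Pool.Agent.Helper27.T5b.ct
  exact (card_filter_le _ _).trans (card_range x).le

/-- size of the fresh modulus -/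
theorem q_le {l' l : ℕ} (hm : m.Ok) (hS : SS m (sL m k l) ≤ l) :
    (MSp m k l' l 0 0).q ≤ BP k ^ (2 * l) := by
  have h1 : (MSp m k l' l 0 0).q = Pool.Agent.Helper5.ET.pr
      (fam (era (mL m k l) + 2)) ^ aJ m k (sL m k l) (ef m k l 0)
        (Sum.inl (fam (era (mL m k l) + 2))) := rfl
  rw [h1]
  have h2 := aJ_le m k (sL m k l) (ef m k l 0)
    (fam (era (mL m k l) + 2))
  have h3 : ef m k l 0 ≤ l + SS m (sL m k l) := by
    have e1 := Pool.Agent.Helper48.T5g.ef_le (k := k) hm l 0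
    have e2 := Pool.Agent.Helper48.T5g.ez_le_SS hm (sL m k l) l
    omega
  calc Pool.Agent.Helper5.ET.pr (fam (era (mL m k l) + 2)) ^ _
      ≤ BP k ^ aJ m k (sL m k l) (ef m k l 0)
        (Sum.inl (fam (era (mL m k l) + 2))) :=
        Nat.pow_le_pow_left (Pool.Agent.Helper30.T5g.pr_le_BP k _) _
    _ ≤ _ := Nat.pow_le_pow_right (Pool.Agent.Helper30.T5g.BP_pos k) (by omega)

/-- the constant of the exponents -/
noncomputable def Lk (k : ℕ) : ℝ := 6 * Real.log (BP k)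

theorem bnd_le {l' l mm : ℕ} (hm : m.Ok) (hl34 : 34 * RT m k k ≤ l) (hS : SS m (sL m k l) ≤ l) :
    bnd m k l' l mm ≤ Real.exp (Lk k * l) *
      Real.exp (-((SS m (sL m k l') : ℝ) / 2 * (mm + 1))) := by
  have hB := Pool.Agent.Helper30.T5g.BP_pos k
  have hBr : (0 : ℝ) < BP k := by exact_mod_cast hB
  have hB2 : 2 ≤ BP k := by
    have := Pool.Agent.Helper99.T5g.le_BP k
    rcases Nat.eq_zero_or_pos k with h0 | h0
    · rw [h0]
      have := Pool.Agent.Helper30.T5.lt_sp (3 * (0 + 3))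
      unfold BP
      omega
    · omega
  have h1 : 34 * NL m k l ≤ BP k ^ (2 * l) := by
    calc 34 * NL m k l ≤ 34 * (RT m k k * BP k ^ l) :=
          Nat.mul_le_mul_left _ (Pool.Agent.Helper30.T5g.NL_le_pow m k l)
      _ = (34 * RT m k k) * BP k ^ l := by ring
      _ ≤ BP k ^ l * BP k ^ l := by
          refine Nat.mul_le_mul_right _ (hl34.trans ?_)
          exact (Nat.lt_pow_self (by omega)).le
      _ = _ := by rw [← pow_add]; congr 1; ring
  have h2 : ((34 * NL m k l : ℕ) : ℝ) ≤ Real.exp (2 * Real.log (BP k) * l) := by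
    have e2 : Real.exp (2 * Real.log (BP k) * l) = (BP k : ℝ) ^ (2 * l) := by
      have e3 : 2 * Real.log (BP k) * l = Real.log (BP k) * ((2 * l : ℕ) : ℝ) := by
        push_cast
        ring
      rw [e3, Real.exp_mul, Real.exp_log hBr, Real.rpow_natCast]
    rw [e2]
    exact_mod_cast h1
  have h3 : ((MSp m k l' l 0 0).q : ℝ) ^ 2 ≤ Real.exp (4 * Real.log (BP k) * l) := by
    have e1 : ((MSp m k l' l 0 0).q : ℝ) ≤ (BP k : ℝ) ^ (2 * l) := by
      exact_mod_cast q_le (k := k) (l' := l') (l := l) hm hS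
    have e2 : Real.exp (4 * Real.log (BP k) * l) = (BP k : ℝ) ^ (4 * l) := by
      have e3 : 4 * Real.log (BP k) * l = Real.log (BP k) * ((4 * l : ℕ) : ℝ) := by
        push_cast
        ring
      rw [e3, Real.exp_mul, Real.exp_log hBr, Real.rpow_natCast]
    rw [e2]
    calc ((MSp m k l' l 0 0).q : ℝ) ^ 2 ≤ ((BP k : ℝ) ^ (2 * l)) ^ 2 := by gcongr
      _ = _ := by rw [← pow_mul]; congr 1; ring
  have h4 : 2 * Real.exp (-(SS m (sL m k l') : ℝ)) ≤
      Real.exp (-((SS m (sL m k l') : ℝ) / 2)) := by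
    have e1 : (2 : ℝ) ≤ SS m (sL m k l') := by
      have := SS_ge hm (sL m k l')
      have h5 : 2 ≤ 2 ^ 250 := by norm_num
      exact_mod_cast h5.trans this
    have e2 : (2 : ℝ) ≤ Real.exp ((SS m (sL m k l') : ℝ) / 2) := by
      have := Real.add_one_le_exp ((SS m (sL m k l') : ℝ) / 2)
      linarith
    have e3 : Real.exp (-((SS m (sL m k l') : ℝ) / 2)) =
        Real.exp ((SS m (sL m k l') : ℝ) / 2) * Real.exp (-(SS m (sL m k l') : ℝ)) := by
      rw [← Real.exp_add]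
      congr 1
      ring
    rw [e3]
    exact mul_le_mul_of_nonneg_right e2 (Real.exp_pos _).le
  have h5 : (2 * Real.exp (-(SS m (sL m k l') : ℝ))) ^ (mm + 1) ≤
      Real.exp (-((SS m (sL m k l') : ℝ) / 2 * (mm + 1))) := by
    have e1 : Real.exp (-((SS m (sL m k l') : ℝ) / 2 * (mm + 1))) =
        Real.exp (-((SS m (sL m k l') : ℝ) / 2)) ^ (mm + 1) := by
      rw [← Real.exp_nat_mul]
      congr 1
      push_cast
      ring
    rw [e1]
    exact pow_le_pow_left₀ (by positivity) h4 _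
  unfold bnd Lk
  calc ((34 * NL m k l : ℕ) : ℝ) * (((MSp m k l' l 0 0).q : ℝ) ^ 2 *
        (2 * Real.exp (-(SS m (sL m k l') : ℝ))) ^ (mm + 1))
      ≤ Real.exp (2 * Real.log (BP k) * l) *
        (Real.exp (4 * Real.log (BP k) * l) *
          Real.exp (-((SS m (sL m k l') : ℝ) / 2 * (mm + 1)))) := by
        gcongr
    _ = _ := by
        rw [← Real.exp_add, ← Real.exp_add, ← Real.exp_add]
        congr 1
        ring

theorem Lk_nonneg (k : ℕ) : 0 ≤ Lk k := by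
  have hB := Pool.Agent.Helper30.T5g.BP_pos k
  have h2 : (1 : ℝ) ≤ (BP k : ℝ) := by exact_mod_cast hB
  unfold Lk
  have := Real.log_nonneg h2
  positivity

/-- the constant of the counts -/
noncomputable def C8 (k : ℕ) : ℕ := ⌈2 * (58 + Lk k)⌉₊

/-- the numbers of the counts -/
theorem cnt_le (hF : Pool.Agent.Helper99.T5g.OkF m) {l a : ℕ} (ha : 0 < a)
    (hla : l ≤ 2 ^ (5 * m.q 0) * a) :
    2 * 1000038 * (2 * ((2 * BP m.k) ^ 7 * (C3 m.k * 8 ^ m.k)) * (C8 m.k * l / a)) ≤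
      2 ^ (20 * m.q 0) := by
  have hq : 400 ≤ m.q 0 := hF.toOk.q 0
  have hgr : m.gr 0 ≤ m.q 0 := by
    have := hF.grq
    omega
  have hB : 2 * BP m.k ≤ 2 ^ m.gr 0 := by
    have := hF.big
    omega
  have h1 : (2 * BP m.k) ^ 7 ≤ 2 ^ (7 * m.q 0) := by
    calc (2 * BP m.k) ^ 7 ≤ (2 ^ m.gr 0) ^ 7 := Nat.pow_le_pow_left hB 7
      _ = 2 ^ (m.gr 0 * 7) := by rw [← pow_mul]
      _ ≤ _ := Nat.pow_le_pow_right (by norm_num) (by omega)
  have h2 : C3 m.k * 8 ^ m.k ≤ 2 ^ (3 * m.q 0) := by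
    have e1 : C3 m.k ≤ 2 ^ (3 * m.gr 0) := by
      unfold C3
      calc (2 * BP m.k) ^ 3 ≤ (2 ^ m.gr 0) ^ 3 := Nat.pow_le_pow_left hB 3
        _ = _ := by rw [← pow_mul, mul_comm]
    have e2 : 8 ^ m.k ≤ 2 ^ m.q 0 := ((Nat.pow_le_pow_left (by norm_num) m.k).trans
      (Nat.pow_le_pow_right (by norm_num) (by omega : m.k ≤ m.k + 4))).trans hF.k16_le
    have e3 : 3 * m.gr 0 ≤ m.q 0 := by
      have := hF.kq
      omega
    calc C3 m.k * 8 ^ m.k ≤ 2 ^ m.q 0 * 2 ^ m.q 0 :=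
          Nat.mul_le_mul (e1.trans (Nat.pow_le_pow_right (by norm_num) e3)) e2
      _ = 2 ^ (2 * m.q 0) := by rw [← pow_add, two_mul]
      _ ≤ _ := Nat.pow_le_pow_right (by norm_num) (by omega)
  have h3 : C8 m.k ≤ 2 ^ m.q 0 := by
    have e1 : Lk m.k ≤ 6 * m.q 0 := by
      unfold Lk
      have f1 : (BP m.k : ℝ) ≤ 2 ^ m.gr 0 := by
        exact_mod_cast (show BP m.k ≤ 2 ^ m.gr 0 by omega)
      have f2 : Real.log (BP m.k) ≤ m.gr 0 := by
        have hBr : (0 : ℝ) < BP m.k := by exact_mod_cast Pool.Agent.Helper30.T5g.BP_pos m.k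
        calc Real.log (BP m.k) ≤ Real.log (2 ^ m.gr 0) := Real.log_le_log hBr f1
          _ = m.gr 0 * Real.log 2 := Real.log_pow _ _
          _ ≤ m.gr 0 * 1 := by
              refine mul_le_mul_of_nonneg_left ?_ (Nat.cast_nonneg _)
              have := Real.log_two_lt_d9
              linarith
          _ = _ := mul_one _
      have f3 : (m.gr 0 : ℝ) ≤ m.q 0 := by exact_mod_cast hgr
      linarith
    have e2 : C8 m.k ≤ 116 + 12 * m.q 0 := by
      unfold C8
      refine Nat.ceil_le.2 ?_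
      push_cast
      linarith
    have e3 : 116 + 12 * m.q 0 ≤ 2 ^ m.q 0 := by
      have f1 : ∀ x, 400 ≤ x → 116 + 12 * x ≤ 2 ^ x := by
        intro x hx
        induction x, hx using Nat.le_induction with
        | base =>
          exact le_trans (by norm_num : 116 + 12 * 400 ≤ 2 ^ 13)
            (Nat.pow_le_pow_right (by norm_num) (by norm_num))
        | succ x hx ih =>
          have : 2 ^ 4 ≤ 2 ^ x := Nat.pow_le_pow_right (by norm_num) (by omega)
          rw [pow_succ]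
          omega
      exact f1 _ hq
    exact e2.trans e3
  have h4 : C8 m.k * l / a ≤ 2 ^ (6 * m.q 0) := by
    refine Nat.div_le_of_le_mul ?_
    calc C8 m.k * l ≤ 2 ^ m.q 0 * (2 ^ (5 * m.q 0) * a) := Nat.mul_le_mul h3 hla
      _ = a * 2 ^ (6 * m.q 0) := by
          rw [show 6 * m.q 0 = m.q 0 + 5 * m.q 0 by ring, pow_add]
          ring
  have h5 : 2 * 1000038 * 2 ≤ 2 ^ m.q 0 :=
    le_trans (by norm_num : 2 * 1000038 * 2 ≤ 2 ^ 30)
      (Nat.pow_le_pow_right (by norm_num) (by omega))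
  calc 2 * 1000038 * (2 * ((2 * BP m.k) ^ 7 * (C3 m.k * 8 ^ m.k)) * (C8 m.k * l / a))
      = (2 * 1000038 * 2) * (((2 * BP m.k) ^ 7 * (C3 m.k * 8 ^ m.k)) * (C8 m.k * l / a)) := by
        ring
    _ ≤ 2 ^ m.q 0 * ((2 ^ (7 * m.q 0) * 2 ^ (3 * m.q 0)) * 2 ^ (6 * m.q 0)) := by gcongr
    _ = 2 ^ (17 * m.q 0) := by
        rw [← pow_add, ← pow_add, ← pow_add]
        congr 1
        ring
    _ ≤ _ := Nat.pow_le_pow_right (by norm_num) (by omega)

/-- **the pairs across SPLIT at a distance at least `8 SS`** -/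
theorem splitMid_rp (hF : Pool.Agent.Helper99.T5g.OkF m) (hk : k = m.k) : ∃ K0 : ℕ,
    ∀ l l', K0 ≤ l' → l' ≤ l → CaseSplitMid m k l' l →
    ∀ K : Finset Key, keysOf m k l ⊆ K → keysOf m k l' ⊆ K →
    PrG (Mk m k) K (fun w => ∃ c, RpC m k l l' w c ∧ 2 ^ (20 * m.q 0) < c)
      (2 * Real.exp (-((l : ℝ) ^ ((1 : ℝ) / 4)))) := by
  have hQ : Pool.Agent.Helper30.T5g.BigQ m k := by
    rw [hk]
    exact Pool.Agent.Helper30.T5g.bigQ_of_okF hF
  have hm0 : m.Ok := hF.toOk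
  have hm := hm0
  obtain ⟨la, ha⟩ := Pool.Agent.Helper12.T5g.s3_fin hm0 k
  obtain ⟨lb, hb⟩ := Pool.Agent.Helper45.T5g.reg_okey hm hF.qc hF.kc k
  obtain ⟨lc, hc⟩ := Pool.Agent.Helper30.T5g.exists_late (k := k) hm0 1 0
  obtain ⟨ld, hdd⟩ := Pool.Agent.Helper27.T5g.exists_dbl hm0 k
  obtain ⟨le, hle⟩ := Pool.Agent.Helper27.T5g.exists_AA_range hm0 k
  obtain ⟨lf, hlf⟩ := Pool.Agent.Helper27.T5g.exists_bL hm0 k 1
  obtain ⟨lg, hlg⟩ := Pool.Agent.Helper45.T5g.exists_bufL hm0 hF.qc hF.kc k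
  have hC' : 2 * (58 + Lk k) ≤ (C8 k : ℝ) := Nat.le_ceil _
  refine ⟨la + lb + lc + ld + le + lf + lg + 1 + 34 * RT m k k, ?_⟩
  intro l l' hl' hll hcase K hK hK'
  obtain ⟨hN, hS, hD1, hD2⟩ := hcase
  obtain ⟨p1, p2, p3, -, p5⟩ := hc l (by omega)
  obtain ⟨p1', p2', p3', -, p5'⟩ := hc l' (by omega)
  have hev := splitEv_of hm0 hll p2' p3' hN hS
  have hP := Pool.Agent.Helper48.T5g.SplitP_of hm0 hll hev
  have hSpos := SS_pos m (sL m k l')
  have hlt : l' < l := by omega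
  have hd := Pool.Agent.Helper48.T5g.SplitDig_of hm0 hlt hev
  obtain ⟨s, hs⟩ : ∃ s, Pool.Agent.Helper37.T5g.lv m k (era (mL m k l)) = s := ⟨_, rfl⟩
  rw [hs] at hP
  have hs1 := hP.s1
  have hs' := hP.s'
  -- moduli of the positions
  have hC : ∀ x, l' ≤ x → x ≤ ez m (sL m k l) l →
      NL m k x = RT m k (sL m k l) * Jn m k (sL m k l) x := by
    intro x hx1 hx2
    rw [hs1]
    have e1 := Pool.Agent.Helper48.T5g.ez_le_SS hm0 (s + 1) l
    rw [hs1] at hx2
    exact Pool.Agent.Helper48.T5g.NL_eq_Jn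
      ((hP.win x hx1 (by omega)).cpl_succ hm0 (by rw [hs']))
  have hSS1 : SS m (sL m k l + 1) ≤ mL m k l := Pool.Agent.Helper30.T5g.SS_sv_succ_le' hm0 p2 p3
  have hmLl : mL m k l ≤ l := Pool.Agent.Helper27.T5b.l1_le (ins m k) l
  have hSSl : SS m (sL m k l) ≤ l := (SS_mono m (Nat.le_succ _)).trans (hSS1.trans hmLl)
  have hD3 : l - l' ≤ 2 ^ 20 * SS m (sL m k l) := by
    have : 200 * SS m (sL m k l) ≤ 2 ^ 20 * SS m (sL m k l) := Nat.mul_le_mul_right _ (by norm_num)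
    omega
  have hl1 : 1 ≤ l := by omega
  have hlr : (1 : ℝ) ≤ l := by exact_mod_cast hl1
  have hreg : PrG (Mk m k) K (fun w => ¬ GoodR m k l w)
      (Real.exp (-(2 * (SS m (sL m k l - 0 + 1) : ℝ)))) := by
    refine hb l (by omega) 0 ?_ K ?_
    · rw [hP.rL1]
      omega
    · intro x hx i y hy
      refine hK (Skey_mem hm0 p2 ?_ (okey_lt hm0 p2 hx 0) hy i)
      rw [hP.rL1]
      omega
  obtain ⟨hdb', hNL'⟩ := hdd l' (by omega)
  set a := SS m (sL m k l') with hadef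
  set C' := C8 k with hC8
  set mm := C' * l / a with hmm
  have hall := s3_all hm0 hP hd hev.keyed' p2 p2' hdb' hNL' (Un_short hm0 hP hC hD1)
    (fun o o' nB nR nY => ha l' l o o' (by omega) hd hD1 hD3 hC nB nR nY)
    (fun w n hn => by
      have h1 : 0 < Rp m k l l' w n := hn
      unfold Rp at h1
      obtain ⟨⟨u, u'⟩, hu⟩ := card_pos.1 h1
      rw [mem_filter, mem_product] at hu
      obtain ⟨⟨hu1, hu2⟩, hu3⟩ := hu
      obtain ⟨-, b1, -⟩ := hle l (by omega) w u hu1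
      obtain ⟨-, b2, -⟩ := hle l' (by omega) w u' hu2
      have b3 := Pool.Agent.Helper30.T5g.NL_mono m k hll
      simp only at hu3
      omega) hK hK' hreg mm
  have har : (0 : ℝ) < a := by exact_mod_cast hSpos
  refine PrG_mono ?_ ?_ hall
  · -- the counts
    intro r _ hB
    obtain ⟨c, ⟨n, rfl⟩, hc1⟩ := hB
    refine ⟨n, ?_⟩
    refine lt_of_le_of_lt ?_ hc1
    have e2 : (MSp m k l' l 0 0).C ≤ (2 * BP k) ^ 7 := Pool.Agent.Helper12.T5g.MSp_C_le
    have hla : l ≤ 2 ^ (5 * m.q 0) * a := by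
      have f1 : mL m k l < 4 * (2 ^ m.kap (sL m k l + 1) * SS m (sL m k l + 2)) :=
        Pool.Agent.Helper30.T5g.lt_SS hm0 k p2
      have f2 : sL m k l = sL m k l' + 1 := by omega
      rw [f2, show sL m k l' + 1 + 2 = sL m k l' + 1 + 1 + 1 by omega, SS_succ, SS_succ, SS_succ, ← hadef, hF.kc, hF.qc, hF.qc (sL m k l' + 1),
        hF.qc (sL m k l' + 1 + 1)] at f1
      have f3 : 2 ^ m.kap 0 ≤ 2 ^ m.q 0 := Nat.pow_le_pow_right (by norm_num) hF.kaple
      have f4 : l ≤ 2 * mL m k l := by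
        have : 1000 * l ≤ 1001 * mL m k l := p5
        omega
      have hq : 400 ≤ m.q 0 := hm0.q 0
      calc l ≤ 2 * mL m k l := f4
        _ ≤ 2 * (4 * (2 ^ m.kap 0 * (a * 2 ^ (m.q 0 + 1) * 2 ^ (m.q 0 + 1) * 2 ^ (m.q 0 + 1)))) :=
            Nat.mul_le_mul_left _ f1.le
        _ ≤ 2 * (4 * (2 ^ m.q 0 * (a * 2 ^ (m.q 0 + 1) * 2 ^ (m.q 0 + 1) * 2 ^ (m.q 0 + 1)))) := by
            gcongr
        _ = 2 ^ (4 * m.q 0 + 6) * a := by ring
        _ ≤ _ := Nat.mul_le_mul_right _ (Nat.pow_le_pow_right (by norm_num) (by omega))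
    have key := cnt_le hF hSpos hla
    rw [← hk, ← hC8] at key
    refine le_trans ?_ key
    rw [hmm]
    gcongr
  · -- the probability
    have hmmr : (C' : ℝ) * l ≤ a * (mm + 1) := by
      have h1 : C' * l < a * (C' * l / a + 1) := Nat.lt_mul_div_succ _ hSpos
      rw [← hmm] at h1
      exact_mod_cast h1.le
    have hb1 := bnd_le (k := k) (l' := l') (l := l) (mm := mm) hm0 (by omega) hSSl
    have hbuf := hlg l (by omega)
    have hbuf' := hlg l' (by omega)
    have hO1 := Pool.Agent.Helper45.T5g.card_OK (k := k) hm p2 (by omega) 0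
    have hsl' : 1 ≤ sL m k l' := by
      obtain ⟨-, q2⟩ := hlf l' (by omega)
      have q3 := bL_le hm0 k l'
      omega
    have hO2 := Pool.Agent.Helper45.T5g.card_OK (k := k) hm p2' hsl' 0
    rw [Nat.sub_zero] at hO1 hO2
    have hSr : (SS m (sL m k l + 1) : ℝ) ≤ l := by exact_mod_cast hSS1.trans hmLl
    have hSr' : (SS m (sL m k l' + 1) : ℝ) ≤ l := by
      have e1 : SS m (sL m k l' + 1) ≤ SS m (sL m k l + 1) := SS_mono m (by omega)
      exact_mod_cast e1.trans (hSS1.trans hmLl)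
    have hO : (((OK m k l 0).card * (OK m k l' 0).card : ℕ) : ℝ) ≤ Real.exp (56 * l) := by
      push_cast
      calc ((OK m k l 0).card : ℝ) * ((OK m k l' 0).card : ℝ)
          ≤ Real.exp (28 * (SS m (sL m k l + 1) : ℝ)) *
            Real.exp (28 * (SS m (sL m k l' + 1) : ℝ)) := by gcongr
        _ = Real.exp (28 * (SS m (sL m k l + 1) : ℝ) + 28 * (SS m (sL m k l' + 1) : ℝ)) :=
            (Real.exp_add _ _).symm
        _ ≤ _ := Real.exp_le_exp.2 (by linarith)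
    have hLk := Lk_nonneg k
    have h2 : (((OK m k l 0).card * (OK m k l' 0).card : ℕ) : ℝ) * bnd m k l' l mm ≤
        Real.exp (-(2 * (l : ℝ))) := by
      have e0 : 0 ≤ bnd m k l' l mm := by
        unfold bnd
        positivity
      calc (((OK m k l 0).card * (OK m k l' 0).card : ℕ) : ℝ) * bnd m k l' l mm
          ≤ Real.exp (56 * l) * (Real.exp (Lk k * l) *
            Real.exp (-((a : ℝ) / 2 * (mm + 1)))) := by gcongr
        _ = Real.exp (56 * l + (Lk k * l + -((a : ℝ) / 2 * (mm + 1)))) := by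
            rw [← Real.exp_add, ← Real.exp_add]
        _ ≤ _ := by
            refine Real.exp_le_exp.2 ?_
            have e1 : 2 * (58 + Lk k) * l ≤ a * (mm + 1) :=
              (mul_le_mul_of_nonneg_right hC' (Nat.cast_nonneg _)).trans hmmr
            nlinarith
    have hq1 : (l : ℝ) ^ ((1 : ℝ) / 4) ≤ 2 * (l : ℝ) := by
      have e1 : (l : ℝ) ^ ((1 : ℝ) / 4) ≤ (l : ℝ) ^ (1 : ℝ) :=
        Real.rpow_le_rpow_of_exponent_le hlr (by norm_num)
      rw [Real.rpow_one] at e1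
      linarith
    have hq2 : (l : ℝ) ^ ((1 : ℝ) / 4) ≤ 2 * (SS m (sL m k l - 0 + 1) : ℝ) := by
      rw [Nat.sub_zero]
      have e1 := Pool.Agent.Helper30.T5g.lt_SS hm0 k p2
      have e2 := Pool.Agent.Helper45.T5g.SS_succ_le_sq hm (sL m k l + 1)
      have e3 : mL m k l < 4 * SS m (sL m k l + 1) ^ 3 := by
        have g1 : 2 ^ m.kap (sL m k l + 1) ≤ SS m (sL m k l + 1) := by
          unfold SS
          refine Nat.pow_le_pow_right (by norm_num) ?_
          have g2 := hm0.qa (sL m k l + 1)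
          have g3 := hF.kaple
          rw [hF.qc (sL m k l + 1)] at g2
          rw [hF.kc (sL m k l + 1)]
          omega
        refine lt_of_lt_of_le e1 (Nat.mul_le_mul_left _ ?_)
        calc 2 ^ m.kap (sL m k l + 1) * SS m (sL m k l + 2)
            ≤ SS m (sL m k l + 1) * SS m (sL m k l + 1) ^ 2 := Nat.mul_le_mul g1 e2
          _ = _ := by ring
      have e4 : 1 ≤ SS m (sL m k l + 1) := SS_pos m _
      have e5 : l ≤ (2 * SS m (sL m k l + 1)) ^ 4 := by
        have f1 : l ≤ 2 * mL m k l := by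
          have : 1000 * l ≤ 1001 * mL m k l := p5
          omega
        have f2 : SS m (sL m k l + 1) ^ 3 ≤ SS m (sL m k l + 1) ^ 4 :=
          Nat.pow_le_pow_right e4 (by norm_num)
        calc l ≤ 2 * mL m k l := f1
          _ ≤ 2 * (4 * SS m (sL m k l + 1) ^ 3) := Nat.mul_le_mul_left _ e3.le
          _ ≤ 16 * SS m (sL m k l + 1) ^ 4 := by omega
          _ = _ := by ring
      have e6 : (l : ℝ) ≤ (2 * (SS m (sL m k l + 1) : ℝ)) ^ (4 : ℕ) := by exact_mod_cast e5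
      calc (l : ℝ) ^ ((1 : ℝ) / 4)
          ≤ ((2 * (SS m (sL m k l + 1) : ℝ)) ^ (4 : ℕ)) ^ ((1 : ℝ) / 4) :=
            Real.rpow_le_rpow (Nat.cast_nonneg _) e6 (by norm_num)
        _ = 2 * (SS m (sL m k l + 1) : ℝ) := by
            rw [← Real.rpow_natCast, ← Real.rpow_mul (by positivity)]
            norm_num
    calc Real.exp (-(2 * (SS m (sL m k l - 0 + 1) : ℝ))) +
          (((OK m k l 0).card * (OK m k l' 0).card : ℕ) : ℝ) * bnd m k l' l mm
        ≤ Real.exp (-((l : ℝ) ^ ((1 : ℝ) / 4))) + Real.exp (-((l : ℝ) ^ ((1 : ℝ) / 4))) := by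
          refine add_le_add (Real.exp_le_exp.2 (by linarith)) (h2.trans ?_)
          exact Real.exp_le_exp.2 (by linarith)
      _ = _ := by ring

/-- **T5g, line 10: the pairs across SPLIT, middle distance** -/
theorem splitMid : Blk CaseSplitMid RpC := by
  refine ⟨20, 0, fun m hF _ => ?_⟩
  obtain ⟨K0, h2⟩ := splitMid_rp hF rfl
  refine ⟨K0, 1 / 4, 2, by norm_num, by norm_num, fun l l' hl' hll _ hP K hK hK' => ?_⟩
  rw [← Pool.Agent.Helper22.NEAR.PrG_iff_PrLe]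
  exact h2 l l' hl' hll hP K hK hK'

end Pool.Agent.Helper54.T5g
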