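import Pool.Agent.Helper54.T5g.SMFix
import Pool.Agent.Helper98.S3Pg.Top
import Pool.Agent.Helper33.T5g.SplitOf
import Pool.Agent.Helper30.T5g.BigQF

/-!
# T5g: `Blk TwoFar RpC`: `CaseSplitTwo` with `7 SS ≤ 20 (l - l')`
-/

set_option autoImplicit false

namespace Pool.Agent.Helper54.T5g

open Finset Pool.Agent.Helper27.T4 Pool.Agent.Helper84.T5g Pool.Agent.Helper37.T5g
open Pool.Agent.Helper5.ET (mask bb era)
open Pool.Agent.Helper30.T5g (pz QF QT RT ez NL BP)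
open Pool.Agent.Helper39.T5 Pool.Agent.Helper50.T5 Pool.Agent.Helper57.T5
open Pool.Agent.Helper3.T5 (MP)
open Pool.Agent.Helper48.T5g (SplitP gS cT)
open Pool.Agent.Helper45.T5g (IsWinB OK)
open Pool.Agent.Helper22.SL
open Pool.Agent.Helper98.S3Pg (TwoFar GoodT)

variable {m : Sq} {k : ℕ}

theorem aJ_le4 (m : Sq) (k s x : ℕ) (f : Fin 3) : aJ m k s x (Sum.inl f) ≤ x := by
  rw [aJ_inl]
  unfold Pool.Agent.Helper27.T5b.ct
  exact (card_filter_le _ _).trans (card_range x).le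

/-- size of the fresh modulus -/
theorem q_le4 {l' l : ℕ} (hm : m.Ok) (hS : SS m (sL m k l) ≤ l) :
    (MSp m k l' l 0 0).q ≤ BP k ^ (2 * l) := by
  have h1 : (MSp m k l' l 0 0).q = Pool.Agent.Helper5.ET.pr
      (fam (era (mL m k l) + 2)) ^ aJ m k (sL m k l) (ef m k l 0)
        (Sum.inl (fam (era (mL m k l) + 2))) := rfl
  rw [h1]
  have h2 := aJ_le4 m k (sL m k l) (ef m k l 0)
    (fam (era (mL m k l) + 2))
  have h3 : ef m k l 0 ≤ l + SS m (sL m k l) := by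
    have e1 := Pool.Agent.Helper48.T5g.ef_le (k := k) hm l 0
    have e2 := Pool.Agent.Helper48.T5g.ez_le_SS hm (sL m k l) l
    omega
  calc Pool.Agent.Helper5.ET.pr (fam (era (mL m k l) + 2)) ^ _
      ≤ BP k ^ aJ m k (sL m k l) (ef m k l 0)
        (Sum.inl (fam (era (mL m k l) + 2))) :=
        Nat.pow_le_pow_left (Pool.Agent.Helper30.T5g.pr_le_BP k _) _
    _ ≤ _ := Nat.pow_le_pow_right (Pool.Agent.Helper30.T5g.BP_pos k) (by omega)

theorem bnd4_le {l' l mm : ℕ} (hm : m.Ok) (hk : 1 ≤ k) (hl : RT m k k + 6 ≤ l)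
    (hS : SS m (sL m k l) ≤ l) :
    bnd4 m k l' l mm ≤ Real.exp (6 * BP k * l) *
      Real.exp (-((SS m (sL m k l') : ℝ) / 50 * (mm + 1))) := by
  have hB := Pool.Agent.Helper30.T5g.BP_pos k
  have hB2 : 2 ≤ BP k := by
    have := Pool.Agent.Helper99.T5g.le_BP k
    omega
  have h1 : 34 * NL m k l ≤ BP k ^ (2 * l) := by
    have e1 : 34 * RT m k k ≤ BP k ^ l := by
      calc 34 * RT m k k ≤ 2 ^ 6 * 2 ^ RT m k k :=
            Nat.mul_le_mul (by norm_num) Nat.lt_two_pow_self.le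
        _ = 2 ^ (RT m k k + 6) := by rw [pow_add, mul_comm]
        _ ≤ 2 ^ l := Nat.pow_le_pow_right (by norm_num) hl
        _ ≤ _ := Nat.pow_le_pow_left hB2 _
    calc 34 * NL m k l ≤ 34 * (RT m k k * BP k ^ l) :=
          Nat.mul_le_mul_left _ (Pool.Agent.Helper30.T5g.NL_le_pow m k l)
      _ = (34 * RT m k k) * BP k ^ l := by ring
      _ ≤ BP k ^ l * BP k ^ l := Nat.mul_le_mul_right _ e1
      _ = _ := by rw [← pow_add]; congr 1; ring
  have h2 : ((34 * NL m k l : ℕ) : ℝ) ≤ (BP k : ℝ) ^ (2 * l) := by exact_mod_cast h1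
  have h3 : ((MSp m k l' l 0 0).q : ℝ) ^ 2 ≤ (BP k : ℝ) ^ (4 * l) := by
    have e1 : ((MSp m k l' l 0 0).q : ℝ) ≤ (BP k : ℝ) ^ (2 * l) := by
      exact_mod_cast q_le4 (k := k) (l' := l') (l := l) hm hS
    calc ((MSp m k l' l 0 0).q : ℝ) ^ 2 ≤ ((BP k : ℝ) ^ (2 * l)) ^ 2 := by gcongr
      _ = _ := by rw [← pow_mul]; congr 1; ring
  have h4 : (BP k : ℝ) ^ (2 * l) * (BP k : ℝ) ^ (4 * l) ≤ Real.exp (6 * BP k * l) := by
    have e1 : (BP k : ℝ) ≤ Real.exp (BP k : ℝ) := by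
      have := Real.add_one_le_exp (BP k : ℝ)
      linarith
    calc (BP k : ℝ) ^ (2 * l) * (BP k : ℝ) ^ (4 * l) = (BP k : ℝ) ^ (6 * l) := by
          rw [← pow_add]; congr 1; ring
      _ ≤ (Real.exp (BP k : ℝ)) ^ (6 * l) := by gcongr
      _ = _ := by
          rw [← Real.exp_nat_mul]
          congr 1
          push_cast
          ring
  have h5 : (Real.exp (-((SS m (sL m k l') : ℝ) / 50))) ^ (mm + 1) =
      Real.exp (-((SS m (sL m k l') : ℝ) / 50 * (mm + 1))) := by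
    rw [← Real.exp_nat_mul]
    congr 1
    push_cast
    ring
  unfold bnd4
  rw [h5]
  calc ((34 * NL m k l : ℕ) : ℝ) * (((MSp m k l' l 0 0).q : ℝ) ^ 2 *
        Real.exp (-((SS m (sL m k l') : ℝ) / 50 * (mm + 1))))
      ≤ (BP k : ℝ) ^ (2 * l) * ((BP k : ℝ) ^ (4 * l) *
          Real.exp (-((SS m (sL m k l') : ℝ) / 50 * (mm + 1)))) := by
        gcongr
    _ = ((BP k : ℝ) ^ (2 * l) * (BP k : ℝ) ^ (4 * l)) *
          Real.exp (-((SS m (sL m k l') : ℝ) / 50 * (mm + 1))) := by ring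
    _ ≤ _ := mul_le_mul_of_nonneg_right h4 (Real.exp_pos _).le

/-- the multiplicity -/
theorem mult4_le (hm : Pool.Agent.Helper99.T5g.OkF m) {C a l : ℕ}
    (hC : C ≤ (2 * BP m.k) ^ 7) (hl : l ≤ 2 ^ (4 * m.q 0 + 6) * a) :
    2 * 1000038 * (2 * (C * (C3 m.k * 8 ^ m.k)) *
      (50 * (58 + 6 * BP m.k) * l / a)) ≤ 2 ^ (10 * m.q 0) := by
  have hq := hm.toOk.q 0
  have h1 := hm.BP16_le
  have h16 := hm.k16_le
  have hB := Pool.Agent.Helper30.T5g.BP_pos m.k
  have h2 : C * (C3 m.k * 8 ^ m.k) ≤ 2 ^ (3 * m.q 0) := by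
    calc C * (C3 m.k * 8 ^ m.k) ≤ (2 * BP m.k) ^ 7 * (C3 m.k * 8 ^ m.k) :=
          Nat.mul_le_mul_right _ hC
      _ = (2 * BP m.k) ^ 10 * 8 ^ m.k := by
          unfold C3
          ring
      _ ≤ (2 ^ 40 * BP m.k) ^ 16 * 16 ^ (m.k + 4) := by
          refine Nat.mul_le_mul ?_ ?_
          · exact (Nat.pow_le_pow_left (Nat.mul_le_mul_right _ (by norm_num)) 10).trans
              (Nat.pow_le_pow_right (by omega) (by norm_num))
          · exact (Nat.pow_le_pow_left (by norm_num) m.k).trans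
              (Nat.pow_le_pow_right (by norm_num) (by omega))
      _ ≤ 2 ^ m.q 0 * 2 ^ m.q 0 := Nat.mul_le_mul h1 h16
      _ = 2 ^ (2 * m.q 0) := by rw [← pow_add, two_mul]
      _ ≤ _ := Nat.pow_le_pow_right (by norm_num) (by omega)
  have h3 : 50 * (58 + 6 * BP m.k) ≤ 2 ^ m.q 0 := by
    have e1 : 2 ^ 40 * BP m.k ≤ (2 ^ 40 * BP m.k) ^ 16 :=
      Nat.le_self_pow (by norm_num) _
    have e2 := e1.trans h1
    refine le_trans ?_ e2
    have e3 : 3200 * BP m.k ≤ 2 ^ 40 * BP m.k := Nat.mul_le_mul_right _ (by norm_num)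
    omega
  have h4 : 50 * (58 + 6 * BP m.k) * l / a ≤ 2 ^ m.q 0 * 2 ^ (4 * m.q 0 + 6) := by
    refine Nat.div_le_of_le_mul ?_
    calc 50 * (58 + 6 * BP m.k) * l ≤ 2 ^ m.q 0 * (2 ^ (4 * m.q 0 + 6) * a) :=
          Nat.mul_le_mul h3 hl
      _ = _ := by ring
  calc 2 * 1000038 * (2 * (C * (C3 m.k * 8 ^ m.k)) *
        (50 * (58 + 6 * BP m.k) * l / a))
      ≤ 2 * 1000038 * (2 * 2 ^ (3 * m.q 0) * (2 ^ m.q 0 * 2 ^ (4 * m.q 0 + 6))) := by gcongr
    _ ≤ 2 ^ 21 * (2 ^ 1 * 2 ^ (3 * m.q 0) * (2 ^ m.q 0 * 2 ^ (4 * m.q 0 + 6))) :=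
        Nat.mul_le_mul (by norm_num) (by rw [pow_one])
    _ = 2 ^ (21 + (1 + 3 * m.q 0 + (m.q 0 + (4 * m.q 0 + 6)))) := by
        rw [← pow_add, ← pow_add, ← pow_add, ← pow_add]
    _ ≤ _ := Nat.pow_le_pow_right (by norm_num) (by omega)

/-- **the pairs across SPLIT at a distance between `.35 SS` and `8 SS`** -/
theorem twoFar_rp (hmF : Pool.Agent.Helper99.T5g.OkF m) {k : ℕ} (hk : k = m.k) (hk1 : 1 ≤ k) :
    ∃ (K0 : ℕ), ∀ l l', K0 ≤ l' → l' ≤ l → TwoFar m k l' l →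
    ∀ K : Finset Key, keysOf m k l ⊆ K → keysOf m k l' ⊆ K →
    PrG (Mk m k) K (fun w => ∃ c, RpC m k l l' w c ∧ 2 ^ (10 * m.q 0) < c)
      (4 * Real.exp (-((l : ℝ) ^ ((1 : ℝ) / 8)))) := by
  have hm := hmF.toOk
  have hm0 := hm
  have hQ : Pool.Agent.Helper30.T5g.BigQ m k := by
    rw [hk]
    exact Pool.Agent.Helper30.T5g.bigQ_of_okF hmF
  obtain ⟨lh, hh⟩ := Pool.Agent.Helper45.T5g.exists_bufL hm hmF.qc hmF.kc k
  obtain ⟨la, ha⟩ := Pool.Agent.Helper98.S3Pg.num hm hk1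
  obtain ⟨lb, hb⟩ := Pool.Agent.Helper98.S3Pg.goodT_pr hm hmF.qc hmF.kc hk1
  obtain ⟨lc, hc⟩ := Pool.Agent.Helper30.T5g.exists_late (k := k) hm0 1 0
  obtain ⟨ld, hdd⟩ := Pool.Agent.Helper27.T5g.exists_dbl hm0 k
  obtain ⟨le, hle⟩ := Pool.Agent.Helper27.T5g.exists_AA_range hm0 k
  obtain ⟨lf, hlf⟩ := Pool.Agent.Helper27.T5g.exists_bL hm0 k 1
  obtain ⟨lg, hlg⟩ := Pool.Agent.Helper98.S3Pg.Un_short' hm hk1
  obtain ⟨C', hC'⟩ : ∃ C' : ℕ, C' = 50 * (58 + 6 * BP k) := ⟨_, rfl⟩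
  refine ⟨la + lb + lc + ld + le + lf + lg + lh + (RT m k k + 6), ?_⟩
  intro l l' hl' hll hcase K hK hK'
  obtain ⟨⟨hN, hS, hef, hD2⟩, hD1⟩ := hcase
  obtain ⟨p1, p2, p3, -, p5⟩ := hc l (by omega)
  obtain ⟨p1', p2', p3', -, p5'⟩ := hc l' (by omega)
  have hev := Pool.Agent.Helper33.T5g.splitEv_of_near hm0 hll p2' p3' hN hS
  have hP := Pool.Agent.Helper48.T5g.SplitP_of hm0 hll hev
  have hSpos := SS_pos m (sL m k l')
  have hlt : l' < l := by omega
  have hd := Pool.Agent.Helper48.T5g.SplitDig_of hm0 hlt hev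
  obtain ⟨s, hs⟩ : ∃ s, Pool.Agent.Helper37.T5g.lv m k (era (mL m k l)) = s := ⟨_, rfl⟩
  rw [hs] at hP
  have hs1 := hP.s1
  have hs' := hP.s'
  have hP' : SplitP m k (sL m k l') l' l := by
    rw [hs']
    exact hP
  -- moduli of the positions
  have hC : ∀ x, l' ≤ x → x ≤ ez m (sL m k l) l →
      NL m k x = RT m k (sL m k l) * Jn m k (sL m k l) x := by
    intro x hx1 hx2
    rw [hs1]
    have e1 := Pool.Agent.Helper48.T5g.ez_le_SS hm0 (s + 1) l
    rw [hs1] at hx2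
    exact Pool.Agent.Helper48.T5g.NL_eq_Jn
      ((hP.win x hx1 (by omega)).cpl_succ hm0 (by rw [hs']))
  have hSS1 : SS m (sL m k l + 1) ≤ mL m k l := Pool.Agent.Helper30.T5g.SS_sv_succ_le' hm0 p2 p3
  have hmLl : mL m k l ≤ l := Pool.Agent.Helper27.T5b.l1_le (ins m k) l
  have hSSl : SS m (sL m k l) ≤ l := (SS_mono m (Nat.le_succ _)).trans (hSS1.trans hmLl)
  have hl1 : 1 ≤ l := by omega
  have hlr : (1 : ℝ) ≤ l := by exact_mod_cast hl1
  have hreg : PrG (Mk m k) K (fun w => ¬ GoodT m k l' l w)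
      (3 * Real.exp (-(2 * (SS m (sL m k l) : ℝ)))) := hb l' l (by omega) hll hP' K hK hK'
  obtain ⟨hdb', hNL'⟩ := hdd l' (by omega)
  set a := SS m (sL m k l') with hadef
  set mm := C' * l / a with hmm
  have hall := s4_all hm0 hP hd hev.keyed' p2 p2' hdb' hNL'
    (hlg l' l (by omega) hP' hD1 hC)
    (fun o o' nY hnY => ha l' l o o' (by omega) hd hP' hef hD1 hD2.le hC nY hnY)
    (fun w n hn => by
      have h1 : 0 < Rp m k l l' w n := hn
      unfold Rp at h1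
      obtain ⟨⟨u, u'⟩, hu⟩ := card_pos.1 h1
      rw [mem_filter, mem_product] at hu
      obtain ⟨⟨hu1, hu2⟩, hu3⟩ := hu
      obtain ⟨-, b1, -⟩ := hle l (by omega) w u hu1
      obtain ⟨-, b2, -⟩ := hle l' (by omega) w u' hu2
      have b3 := Pool.Agent.Helper30.T5g.NL_mono m k hll
      simp only at hu3
      omega) hK hK' hreg mm
  have har : (0 : ℝ) < a := by exact_mod_cast hSpos
  refine PrG_mono ?_ ?_ hall
  · -- the counts
    intro r _ hB
    obtain ⟨c, ⟨n, rfl⟩, hc1⟩ := hB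
    refine ⟨n, ?_⟩
    refine lt_of_le_of_lt ?_ hc1
    have hla : l ≤ 2 ^ (4 * m.q 0 + 6) * a := by
      have f1 := Pool.Agent.Helper30.T5g.lt_mul_SS (k := k) (i := 1) hm0 p2 (by
        show 1 ≤ sL m k l
        omega)
      have f2 : sv m k (Pool.Agent.Helper27.T5b.l1 (ins m k) l) - 1 = sL m k l' := by
        show sL m k l - 1 = sL m k l'
        omega
      rw [f2] at f1
      have f3 : Pool.Agent.Helper30.T5g.Gq m (sv m k (Pool.Agent.Helper27.T5b.l1 (ins m k) l)) = 2 ^ (m.q 0 + 1) := by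
        unfold Pool.Agent.Helper30.T5g.Gq
        rw [hmF.qc]
      rw [f3, hmF.kc] at f1
      have f4 : 4 * 2 ^ m.kap 0 * (2 ^ (m.q 0 + 1)) ^ (1 + 2) ≤ 2 ^ (4 * m.q 0 + 5) := by
        calc 4 * 2 ^ m.kap 0 * (2 ^ (m.q 0 + 1)) ^ (1 + 2)
            ≤ 2 ^ 2 * 2 ^ m.q 0 * (2 ^ (m.q 0 + 1)) ^ (1 + 2) := by
              refine Nat.mul_le_mul_right _ (Nat.mul_le_mul (by norm_num) ?_)
              exact Nat.pow_le_pow_right (by norm_num) hmF.kaple
          _ = _ := by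
              rw [← pow_mul, ← pow_add, ← pow_add]
              congr 1
              ring
      have f5 : mL m k l < 2 ^ (4 * m.q 0 + 5) * a := lt_of_lt_of_le f1 (Nat.mul_le_mul_right _ f4)
      have f6 : l ≤ 2 * mL m k l := by
        have : 1000 * l ≤ 1001 * mL m k l := p5
        omega
      calc l ≤ 2 * mL m k l := f6
        _ ≤ 2 * (2 ^ (4 * m.q 0 + 5) * a) := Nat.mul_le_mul_left _ f5.le
        _ = _ := by ring
    have e2 : (MSp m k l' l 0 0).C ≤ (2 * BP k) ^ 7 := Pool.Agent.Helper12.T5g.MSp_C_le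
    rw [hmm, hC']
    subst hk
    exact mult4_le hmF e2 hla
  · -- the probability
    have hmmr : (C' : ℝ) * l ≤ a * (mm + 1) := by
      have h1 : C' * l < a * (C' * l / a + 1) := Nat.lt_mul_div_succ _ hSpos
      rw [← hmm] at h1
      exact_mod_cast h1.le
    have hb1 := bnd4_le (k := k) (l' := l') (mm := mm) hm0 hk1 (by omega) hSSl
    have hbf1 : Pool.Agent.Helper45.T5g.BufL m k l := hh l (by omega)
    have hbf2 : Pool.Agent.Helper45.T5g.BufL m k l' := hh l' (by omega)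
    have hO1 := Pool.Agent.Helper45.T5g.card_OK (k := k) hm p2 (by omega) 0
    have hsl' : 1 ≤ sL m k l' := by
      obtain ⟨-, q2⟩ := hlf l' (by omega)
      have q3 := bL_le hm0 k l'
      omega
    have hO2 := Pool.Agent.Helper45.T5g.card_OK (k := k) hm p2' hsl' 0
    rw [Nat.sub_zero] at hO1 hO2
    have hSr : (SS m (sL m k l + 1) : ℝ) ≤ l := by exact_mod_cast hSS1.trans hmLl
    have hSr' : (SS m (sL m k l' + 1) : ℝ) ≤ l := by
      have e1 : SS m (sL m k l' + 1) ≤ SS m (sL m k l + 1) := SS_mono m (by omega)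
      exact_mod_cast e1.trans (hSS1.trans hmLl)
    have hO : (((OK m k l 0).card * (OK m k l' 0).card : ℕ) : ℝ) ≤ Real.exp (56 * l) := by
      push_cast
      calc ((OK m k l 0).card : ℝ) * ((OK m k l' 0).card : ℝ)
          ≤ Real.exp (28 * (SS m (sL m k l + 1) : ℝ)) *
            Real.exp (28 * (SS m (sL m k l' + 1) : ℝ)) := by gcongr
        _ = Real.exp (28 * (SS m (sL m k l + 1) : ℝ) + 28 * (SS m (sL m k l' + 1) : ℝ)) :=
            (Real.exp_add _ _).symm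
        _ ≤ _ := Real.exp_le_exp.2 (by linarith)
    have hLk : (0 : ℝ) ≤ 6 * BP k := by positivity
    have h2 : (((OK m k l 0).card * (OK m k l' 0).card : ℕ) : ℝ) * bnd4 m k l' l mm ≤
        Real.exp (-(2 * (l : ℝ))) := by
      have e0 : 0 ≤ bnd4 m k l' l mm := by
        unfold bnd4
        positivity
      calc (((OK m k l 0).card * (OK m k l' 0).card : ℕ) : ℝ) * bnd4 m k l' l mm
          ≤ Real.exp (56 * l) * (Real.exp (6 * BP k * l) *
            Real.exp (-((a : ℝ) / 50 * (mm + 1)))) := by gcongr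
        _ = Real.exp (56 * l + (6 * BP k * l + -((a : ℝ) / 50 * (mm + 1)))) := by
            rw [← Real.exp_add, ← Real.exp_add]
        _ ≤ _ := by
            refine Real.exp_le_exp.2 ?_
            have e1 : (50 : ℝ) * (58 + 6 * BP k) * l ≤ a * (mm + 1) := by
              have e0 : (C' : ℝ) = 50 * (58 + 6 * BP k) := by
                rw [hC']
                push_cast
                ring
              rw [← e0]
              exact hmmr
            nlinarith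
    have hq1 : (l : ℝ) ^ ((1 : ℝ) / 8) ≤ 2 * (l : ℝ) := by
      have e1 : (l : ℝ) ^ ((1 : ℝ) / 8) ≤ (l : ℝ) ^ (1 : ℝ) :=
        Real.rpow_le_rpow_of_exponent_le hlr (by norm_num)
      rw [Real.rpow_one] at e1
      linarith
    have hq2 : (l : ℝ) ^ ((1 : ℝ) / 8) ≤ 2 * (SS m (sL m k l) : ℝ) := by
      have e1 := Pool.Agent.Helper30.T5g.lt_SS hm0 k p2
      have e2 := Pool.Agent.Helper45.T5g.SS_succ_le_sq hm (sL m k l + 1)
      have e2' := Pool.Agent.Helper45.T5g.SS_succ_le_sq hm (sL m k l)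
      have ek : 2 ^ m.kap (sL m k l + 1) ≤ SS m (sL m k l) := by
        rw [hmF.kc]
        unfold SS
        refine Nat.pow_le_pow_right (by norm_num) ?_
        have h1 := hm.qa (sL m k l)
        have h2 := hmF.qc (sL m k l)
        have h3 := hmF.kaple
        omega
      have e3 : mL m k l < 4 * (SS m (sL m k l) * (SS m (sL m k l) ^ 2) ^ 2) :=
        lt_of_lt_of_le e1 (Nat.mul_le_mul_left _ (Nat.mul_le_mul ek
          (e2.trans (Nat.pow_le_pow_left e2' 2))))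
      have e4 : 1 ≤ SS m (sL m k l) := SS_pos m _
      have e5 : l ≤ (2 * SS m (sL m k l)) ^ 8 := by
        have f1 : l ≤ 2 * mL m k l := by
          have : 1000 * l ≤ 1001 * mL m k l := p5
          omega
        have f2 : SS m (sL m k l) * (SS m (sL m k l) ^ 2) ^ 2 ≤ SS m (sL m k l) ^ 8 := by
          rw [← pow_mul, ← pow_succ']
          exact Nat.pow_le_pow_right e4 (by norm_num)
        calc l ≤ 2 * mL m k l := f1
          _ ≤ 2 * (4 * (SS m (sL m k l) * (SS m (sL m k l) ^ 2) ^ 2)) :=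
              Nat.mul_le_mul_left _ e3.le
          _ ≤ 256 * SS m (sL m k l) ^ 8 := by omega
          _ = _ := by ring
      have e6 : (l : ℝ) ≤ (2 * (SS m (sL m k l) : ℝ)) ^ (8 : ℕ) := by exact_mod_cast e5
      calc (l : ℝ) ^ ((1 : ℝ) / 8)
          ≤ ((2 * (SS m (sL m k l) : ℝ)) ^ (8 : ℕ)) ^ ((1 : ℝ) / 8) :=
            Real.rpow_le_rpow (Nat.cast_nonneg _) e6 (by norm_num)
        _ = 2 * (SS m (sL m k l) : ℝ) := by
            rw [← Real.rpow_natCast, ← Real.rpow_mul (by positivity)]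
            norm_num
    calc 3 * Real.exp (-(2 * (SS m (sL m k l) : ℝ))) +
          (((OK m k l 0).card * (OK m k l' 0).card : ℕ) : ℝ) * bnd4 m k l' l mm
        ≤ 3 * Real.exp (-((l : ℝ) ^ ((1 : ℝ) / 8))) + Real.exp (-((l : ℝ) ^ ((1 : ℝ) / 8))) := by
          refine add_le_add (mul_le_mul_of_nonneg_left (Real.exp_le_exp.2 (by linarith))
            (by norm_num)) (h2.trans ?_)
          exact Real.exp_le_exp.2 (by linarith)
      _ = _ := by ring

/-- **T5g, line 10: `CaseSplitTwo`, middle distance** -/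
theorem splitTwoFar : Blk TwoFar RpC := by
  refine ⟨10, 1, fun m hm hk => ?_⟩
  obtain ⟨K0, h2⟩ := twoFar_rp hm rfl hk
  exact ⟨K0, 1 / 8, 4, by norm_num, by norm_num, fun l l' hl' hll _ hP K hK hK' =>
    h2 l l' hl' hll hP K hK hK'⟩

end Pool.Agent.Helper54.T5g
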