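import Pool.Agent.Helper54.T5g.S3Tup
import Pool.Agent.Helper54.T5.SplitEnd
import Pool.Agent.Helper12.T5g.NumS3c

/-!
# T5g, (S3): the probability for fixed outer keys, the union over the outer keys
-/

set_option autoImplicit false

namespace Pool.Agent.Helper54.T5g

open Finset Pool.Agent.Helper27.T4 Pool.Agent.Helper84.T5g Pool.Agent.Helper37.T5g
open Pool.Agent.Helper5.ET (mask bb)
open Pool.Agent.Helper30.T5g (pz QF QT RT ez NL BP)
open Pool.Agent.Helper39.T5 Pool.Agent.Helper50.T5 Pool.Agent.Helper57.T5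
open Pool.Agent.Helper3.T5 (MP)
open Pool.Agent.Helper48.T5g (SplitP gS cT)
open Pool.Agent.Helper45.T5g (IsWinB OK)
open Pool.Agent.Helper45.T5 (RegSet)
open Pool.Agent.Helper54.T5 (cdQ)
open Pool.Agent.Helper22.SL

variable {m : Sq} {k s l' l : ℕ}

/-- the windows of the upper state are regular, for all outer keys -/
def GoodR (m : Sq) (k l : ℕ) (w : Key → ℕ) : Prop := ∀ x ∈ XJ m k l, ∀ B : Finset ℕ,
  (∀ b ∈ B, IsWinB m k l 0 w (fun t => okey m k l t x) b) →
    RegSet B (QQ m k (sL m k l) 0) ((10 ^ 6) ^ (2 * SS m (sL m k l - (0 + 1))))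
      (Real.sqrt (QQ m k (sL m k l) 0))

theorem isWinB_congr (hm : m.Ok) (hl : bb 0 ≤ mL m k l) {w w' : Key → ℕ} {P : Key → Prop}
    (h : ∀ q ∈ keysOf m k l, P q → w q = w' q) (hP : ∀ t f o y, P (Key.S l t f o y))
    (hV : ∀ L b, P (Key.V l L b)) {o : ℕ → JF → ℕ} (ho : ∀ t j, o t j < Bd m k l) (b : ℕ)
    (hb : IsWinB m k l 0 w o b) : IsWinB m k l 0 w' o b := by
  obtain ⟨y, hy, v, hv, h1⟩ := hb
  refine ⟨y, hy, v, by rw [← Vw_congr m k l w w']; exact hv, ?_⟩
  rw [h1]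
  congr 1
  refine Finset.sum_congr rfl (fun t ht => ?_)
  rw [mem_Ico] at ht
  exact cs_congr hm hl h hP ht.2 (ho t) (hy t ht.1 ht.2)

theorem GoodR_congr (hm : m.Ok) (hl : bb 0 ≤ mL m k l) {w w' : Key → ℕ} {P : Key → Prop}
    (h : ∀ q ∈ keysOf m k l, P q → w q = w' q) (hP : ∀ t f o y, P (Key.S l t f o y))
    (hV : ∀ L b, P (Key.V l L b)) (hg : GoodR m k l w) : GoodR m k l w' := by
  intro x hx B hB
  refine hg x hx B (fun b hb => ?_)
  exact isWinB_congr hm hl (w := w') (w' := w) (fun q hq hq1 => (h q hq hq1).symm) hP hV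
    (fun t j => okey_lt hm hl hx t j) b (hB b hb)

/-- the arc bound for the upper windows -/
theorem arc_ZU (hm : m.Ok) {w : Key → ℕ} {o : JF → ℕ} (hr : 0 < rL m k l)
    (hg : GoodR m k l w) (ho : o ∈ OK m k l 0) {A : ℕ} (hA : Jn m k (sL m k l) l ≤ A) (y : ℕ) :
    ((ZU m k l w o).filter (fun b => y ≤ b ∧ b < y + A)).card ≤
      2 * ⌈((10 : ℝ) ^ (6 * (2 * SS m (sL m k l - 1))) * (1 + (A : ℝ) /
        (Jn m k (sL m k l) l * Real.sqrt (QT m k (sL m k l)))))⌉₊ := by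
  classical
  obtain ⟨x, hx, rfl⟩ : ∃ x ∈ XJ m k l, okey m k l 0 x = o := by
    unfold OK at ho
    rw [mem_image] at ho
    exact ho
  set J := Jn m k (sL m k l) l with hJdef
  have hJ : 0 < J := Pool.Agent.Helper27.T5g.Jn_pos m k (sL m k l) l
  set B := (ZU m k l w (okey m k l 0 x)).image (fun b => b / J) with hB
  have hdvd : ∀ b ∈ ZU m k l w (okey m k l 0 x), J ∣ b := by
    intro b hb
    have h1 := dvd_Zo hm (Nat.zero_le _) (Zo_of_cons hr hb)
    rwa [LL_zero, mul_one] at h1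
  have hreg := hg x hx B (by
    intro β hβ
    rw [hB, mem_image] at hβ
    obtain ⟨b, hb, rfl⟩ := hβ
    refine isWinB_Zo hm (o0 := okey m k l 0 x) (fun t _ => (oo_okey m k l x t).symm) ?_
    rw [Nat.mul_div_cancel' (hdvd b hb)]
    exact Zo_of_cons hr hb)
  have h1 := hreg.arc ((y + J - 1) / J) (A / J + 1)
  have h2 : ((ZU m k l w (okey m k l 0 x)).filter (fun b => y ≤ b ∧ b < y + A)).card ≤
      (B.filter (fun β => (y + J - 1) / J ≤ β ∧ β < (y + J - 1) / J + (A / J + 1))).card := by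
    refine card_le_card_of_injOn (fun b => b / J) ?_ ?_
    · intro b hb
      rw [mem_coe, mem_filter] at hb
      obtain ⟨hb1, hb2, hb3⟩ := hb
      rw [mem_coe, mem_filter]
      refine ⟨mem_image_of_mem _ hb1, ?_, ?_⟩
      · have e1 : J * (b / J) = b := Nat.mul_div_cancel' (hdvd b hb1)
        rw [Nat.div_le_iff_le_mul_add_pred hJ, e1]
        omega
      · have e1 : J * (b / J) = b := Nat.mul_div_cancel' (hdvd b hb1)
        show b / J < (y + J - 1) / J + (A / J + 1)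
        have e2 : y ≤ J * ((y + J - 1) / J) := by
          have := Nat.div_add_mod (y + J - 1) J
          have h3 := Nat.mod_lt (y + J - 1) hJ
          omega
        have e3 : A < J * (A / J + 1) := by
          have := Nat.div_add_mod A J
          have h3 := Nat.mod_lt A hJ
          rw [mul_add, mul_one]
          omega
        refine Nat.lt_of_mul_lt_mul_left (a := J) ?_
        rw [e1, mul_add]
        omega
    · intro b hb b' hb' hbb
      rw [mem_coe, mem_filter] at hb hb'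
      have e1 := Nat.mul_div_cancel' (hdvd b hb.1)
      have e2 := Nat.mul_div_cancel' (hdvd b' hb'.1)
      have e3 : b / J = b' / J := hbb
      rw [← e1, ← e2, e3]
  -- real numbers
  have hQ : QQ m k (sL m k l) 0 = QT m k (sL m k l) := rfl
  rw [hQ] at h1
  set X : ℝ := (10 : ℝ) ^ (6 * (2 * SS m (sL m k l - 1))) * (1 + (A : ℝ) /
        (J * Real.sqrt (QT m k (sL m k l)))) with hX
  have hQ1 : (1 : ℝ) ≤ Real.sqrt (QT m k (sL m k l)) := by
    rw [Real.one_le_sqrt]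
    exact_mod_cast Pool.Agent.Helper30.T5g.QT_pos m k (sL m k l)
  have hJr : (0 : ℝ) < J := by exact_mod_cast hJ
  have hcap : ((10 ^ 6 : ℝ)) ^ (2 * SS m (sL m k l - (0 + 1))) =
      (10 : ℝ) ^ (6 * (2 * SS m (sL m k l - 1))) := by
    rw [← pow_mul]
  have h3 : ((A / J + 1 : ℕ) : ℝ) ≤ 2 * ((A : ℝ) / J) := by
    have e1 : ((A / J : ℕ) : ℝ) ≤ (A : ℝ) / J := Nat.cast_div_le
    have e2 : (1 : ℝ) ≤ (A : ℝ) / J := by
      rw [le_div_iff₀ hJr, one_mul]
      exact_mod_cast hA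
    push_cast
    linarith
  have h4 : (((ZU m k l w (okey m k l 0 x)).filter (fun b => y ≤ b ∧ b < y + A)).card : ℝ) ≤
      2 * X := by
    refine (Nat.cast_le.2 h2).trans (h1.trans ?_)
    rw [hcap, hX]
    have hc0 : (0 : ℝ) ≤ (10 : ℝ) ^ (6 * (2 * SS m (sL m k l - 1))) := by positivity
    have h5 : ((A / J + 1 : ℕ) : ℝ) / Real.sqrt (QT m k (sL m k l)) ≤
        2 * ((A : ℝ) / (J * Real.sqrt (QT m k (sL m k l)))) := by
      calc ((A / J + 1 : ℕ) : ℝ) / Real.sqrt (QT m k (sL m k l))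
          ≤ (2 * ((A : ℝ) / J)) / Real.sqrt (QT m k (sL m k l)) := by gcongr
        _ = _ := by
            rw [mul_div_assoc, div_div]
    calc (10 : ℝ) ^ (6 * (2 * SS m (sL m k l - 1))) *
          (1 + ((A / J + 1 : ℕ) : ℝ) / Real.sqrt (QT m k (sL m k l)))
        ≤ (10 : ℝ) ^ (6 * (2 * SS m (sL m k l - 1))) *
          (2 + 2 * ((A : ℝ) / (J * Real.sqrt (QT m k (sL m k l))))) := by
          refine mul_le_mul_of_nonneg_left ?_ hc0
          linarith
      _ = 2 * ((10 : ℝ) ^ (6 * (2 * SS m (sL m k l - 1))) *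
          (1 + (A : ℝ) / (J * Real.sqrt (QT m k (sL m k l))))) := by ring
  have h6 : (X : ℝ) ≤ (⌈X⌉₊ : ℝ) := Nat.le_ceil X
  have h7 : (((ZU m k l w (okey m k l 0 x)).filter (fun b => y ≤ b ∧ b < y + A)).card : ℝ) ≤
      ((2 * ⌈X⌉₊ : ℕ) : ℝ) := by
    push_cast
    linarith
  exact_mod_cast h7

theorem cop_QT_pJ (m : Sq) (k S : ℕ) (i : JF) : (QT m k S).Coprime (pJ k S i) := by
  unfold QT QF
  refine Nat.Coprime.prod_left (fun f _ => Nat.Coprime.pow_left _ ?_)
  rcases i with g | i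
  · exact (Pool.Agent.Helper30.T5g.coprime_pr_pz g k S f).symm
  · refine Fin.cases ?_ (fun g => ?_) i
    · exact (Pool.Agent.Helper30.T5g.coprime_buf_pz k S f).symm
    · refine Pool.Agent.Helper30.T5g.coprime_pz (Or.inl ?_)
      exact Pool.Agent.Helper30.T5g.mod_ne (by omega) (by omega)

/-- the number of a bad event for fixed outer keys -/
noncomputable def bnd (m : Sq) (k l' l mm : ℕ) : ℝ :=
  ((34 * NL m k l : ℕ) : ℝ) * (((MSp m k l' l 0 0).q : ℝ) ^ 2 *
    (2 * Real.exp (-(SS m (sL m k l') : ℝ))) ^ (mm + 1))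

/-- **fixed outer keys, fixed static keys** -/
theorem s3_fix (hm : m.Ok) (h : SplitP m k s l' l) (hd : SplitDig m k l' l)
    (hl : bb 0 ≤ mL m k l) (hl' : bb 0 ≤ mL m k l')
    (hdb' : ∀ t < rL m k l', 2 * (FF m k l' t * LL (QQ m k (sL m k l')) t) ≤
      FF m k l' (t + 1) * LL (QQ m k (sL m k l')) (t + 1))
    (hNL' : 2 * (FF m k l' (rL m k l') * LL (QQ m k (sL m k l')) (rL m k l')) ≤ NL m k l')
    (hV : Un m k l' * (16 * RT m k (bL m k l')) ≤ Un m k l)
    (hnum : ∀ o o' : JF → ℕ, ∀ nB nR nY : ℕ, nB ≤ 17 * RT m k (sL m k l') →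
      nR ≤ ⌈(10 : ℝ) ^ (6 * (2 * SS m (sL m k l'))) * (1 + ((FF m k l 0 : ℝ) +
        Jn m k (sL m k l) (ef m k l' 0) * QT m k (sL m k l)) /
          (Jn m k (sL m k l) l * Real.sqrt (QT m k (sL m k l))))⌉₊ →
      (nY : ℝ) ≤ Real.sqrt (QT m k (sL m k l)) →
      ((nB * nR : ℕ) : ℝ) * (nY * ((MSp m k l' l o o').C * (MSp m k l' l o o').Lam *
        (min (1 / (QT m k (sL m k l) : ℝ)) (((MSp m k l' l o o').Ne' : ℝ) /
          (MSp m k l' l o o').Ne) + 1 / (MSp m k l' l o o').q))) ≤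
        Real.exp (-(SS m (sL m k l') : ℝ)))
    {K K0 : Finset Key} (hK : keysOf m k l ⊆ K) (hK' : keysOf m k l' ⊆ K)
    (hK0 : ∀ q, q ∈ K0 ↔ q ∈ K ∧ ¬ isMn l' l q) {w0 : Key → ℕ} (hg : GoodR m k l w0)
    {o o' : JF → ℕ} (ho : o ∈ OK m k l 0) (ho' : o' ∈ OK m k l' 0)
    (hM : (MSp m k l' l o o').Ok (Mk m k)) (mm : ℕ) :
    PrG (Mk m k) (K \ K0) (fun w => ∃ n < 34 * NL m k l,
      2 * ((MSp m k l' l o o').C * (C3 k * 8 ^ k)) * mm <
        (tup m k s l' l o o' hM (glue K0 w0 w) n).card) (bnd m k l' l mm) := by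
  classical
  have hr : 0 < rL m k l := by
    rw [h.rL1]
    omega
  have hs : sL m k l = s + 1 := h.s1
  have hs' : sL m k l' = s := h.s'
  have hne : l' ≠ l := hd.ll.ne
  have ho1 : ∀ j, o j < Bd m k l := by
    unfold OK at ho
    rw [mem_image] at ho
    obtain ⟨x, hx, rfl⟩ := ho
    exact fun j => okey_lt hm hl hx 0 j
  have ho2 : ∀ j, o' j < Bd m k l' := by
    unfold OK at ho'
    rw [mem_image] at ho'
    obtain ⟨x, hx, rfl⟩ := ho'
    exact fun j => okey_lt hm hl' hx 0 j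
  have hJ1 : Jn m k (sL m k l') l' = Jn m k (s + 1) l' * QT m k (s + 1) := by
    have h1 := (h.win l' le_rfl (h.le.trans (Nat.le_add_right _ _))).Jn_split hm
    rw [hs']
    exact h1
  have hN0 : (MSp m k l' l o o').N0 = Jn m k (sL m k l) l' := rfl
  have hNe : (MSp m k l' l o o').Ne = FF m k l 0 := rfl
  have hNe' : (MSp m k l' l o o').Ne' = Jn m k (sL m k l) (ef m k l' 0) := rfl
  -- the arc bound
  set A := (MSp m k l' l o o').Ne + (MSp m k l' l o o').Ne' * QT m k (sL m k l) with hA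
  have hAge : Jn m k (sL m k l) l ≤ A := by
    rw [hA, hNe]
    refine le_trans ?_ (Nat.le_add_right _ _)
    exact Nat.le_of_dvd (Pool.Agent.Helper27.T5g.FF_pos m k l 0)
      (Pool.Agent.Helper48.T5g.Jn_dvd m k _ (Pool.Agent.Helper48.T5g.lt_ef hm l 0).le)
  set R := 2 * ⌈((10 : ℝ) ^ (6 * (2 * SS m (sL m k l - 1))) * (1 + (A : ℝ) /
        (Jn m k (sL m k l) l * Real.sqrt (QT m k (sL m k l)))))⌉₊ with hR
  have hcardB := card_Zo (w := w0) (o := o') hm hl' hdb' hNL'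
  have hYn := card_Yn hm h
  rw [← hs] at hYn
  have hρ : (((Zo m k l' 0 w0 o').card * R : ℕ) : ℝ) * (((Yn m k l').card : ℝ) *
      ((MSp m k l' l o o').C * (MSp m k l' l o o').Lam *
        (min (1 / (QT m k (sL m k l) : ℝ)) (((MSp m k l' l o o').Ne' : ℝ) /
          (MSp m k l' l o o').Ne) + 1 / (MSp m k l' l o o').q))) ≤
      2 * Real.exp (-(SS m (sL m k l') : ℝ)) := by
    have e1 : sL m k l - 1 = sL m k l' := by rw [hs, hs']; rfl
    have h1 := hnum o o' (Zo m k l' 0 w0 o').card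
      ⌈((10 : ℝ) ^ (6 * (2 * SS m (sL m k l - 1))) * (1 + (A : ℝ) /
        (Jn m k (sL m k l) l * Real.sqrt (QT m k (sL m k l)))))⌉₊ (Yn m k l').card hcardB
      (by
        rw [e1, hA, hNe, hNe']
        push_cast
        exact le_rfl) hYn
    have e2 : (((Zo m k l' 0 w0 o').card * R : ℕ) : ℝ) = 2 * (((Zo m k l' 0 w0 o').card *
      ⌈((10 : ℝ) ^ (6 * (2 * SS m (sL m k l - 1))) * (1 + (A : ℝ) /
        (Jn m k (sL m k l) l * Real.sqrt (QT m k (sL m k l)))))⌉₊ : ℕ) : ℝ) := by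
      rw [hR]
      push_cast
      ring
    rw [e2, mul_assoc]
    exact mul_le_mul_of_nonneg_left h1 (by norm_num)
  have hkey : ∀ x ∈ (MSp m k l' l o o').X, ∀ i, (MSp m k l' l o o').key i x ∈ K \ K0 := by
    intro x hx i
    rw [mem_sdiff, hK0]
    refine ⟨hK ?_, fun h1 => h1.2 (isMn_key i x)⟩
    exact J_mem (maskJ_lt (Bd_pos m k l) (fun j => XJ_lt hm hl (mem_filter.1 hx).1 j))
  have hkey' : ∀ x ∈ (MSp m k l' l o o').X', ∀ i, (MSp m k l' l o o').key' i x ∈ K \ K0 := by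
    intro x hx i
    rw [mem_sdiff, hK0]
    refine ⟨hK' ?_, fun h1 => h1.2 (isMn_key' i x)⟩
    change x ∈ ((XJ m k l').filter (fun x => okey m k l' 0 x = o')).image lowJ at hx
    rw [mem_image] at hx
    obtain ⟨z, hz, rfl⟩ := hx
    have hz1 : ∀ j, lowJ z j < Bd m k l' := by
      have h2 : 1 < Bd m k l' := by
        unfold Bd
        omega
      intro j
      rcases j with f | j
      · exact XJ_lt hm hl' (mem_filter.1 hz).1 (Sum.inl f)
      · refine Fin.cases ?_ (fun f => ?_) j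
        · exact XJ_lt hm hl' (mem_filter.1 hz).1 (Sum.inr 0)
        · exact h2
    rcases i with f | i
    · exact J_mem (maskJ_lt (Bd_pos m k l') hz1)
    · exact J_mem (fun _ => Bd_pos m k l')
  have hfar := Pool.Agent.Helper54.T5.split_far_win (K := K \ K0) hM (MSp_st hd)
    (Pool.Agent.Helper84.T5g.Mk_pos m k) hkey hkey' (cop_QT_pJ m k (sL m k l))
    (Pool.Agent.Helper30.T5g.QT_pos m k (sL m k l)) (Yn m k l') (gS m k s l' w0)
    (Ys m k l 0) (cs m k l 0 w0 o) (Zo m k l 1 w0 0) (Zo m k l' 0 w0 o')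
    (fun y _ => by
      rw [hN0]
      have h1 := Pool.Agent.Helper48.T5g.cs_dvd m k l 0 w0 o y
      rw [LL_zero, mul_one] at h1
      refine dvd_trans ?_ h1
      exact Pool.Agent.Helper48.T5g.Jn_dvd m k _
        (hd.ll.le.trans (Pool.Agent.Helper48.T5g.lt_ef hm l 1).le))
    (fun b hb => by
      rw [hN0]
      have h1 := dvd_Zo hm (show 1 ≤ rL m k l by omega) hb
      have h2 : LL (QQ m k (sL m k l)) 1 = QT m k (sL m k l) := by
        rw [LL_succ, LL_zero, one_mul]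
        rfl
      rw [h2] at h1
      exact (Nat.mul_dvd_mul_right (Pool.Agent.Helper48.T5g.Jn_dvd m k _ hd.ll.le) _).trans h1)
    (fun b hb => by
      rw [hN0]
      have h1 := dvd_Zo hm (Nat.zero_le _) hb
      rw [LL_zero, mul_one, hJ1] at h1
      rw [hs]
      exact h1)
    (C3 k) (8 ^ k) R (34 * NL m k l)
    (fun T => by
      have h1 := dec_new hm h w0 o T
      rw [hs]
      exact h1)
    (fun T => leaf_Zo hm h w0 o' hV T)
    (fun y => arc_ZU hm hr hg ho hAge y)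
    (ρ := 2 * Real.exp (-(SS m (sL m k l') : ℝ))) (by positivity) hρ mm
  refine PrG_mono ?_ (le_of_eq ?_) hfar
  · intro r _ hB
    obtain ⟨n, hn, hc⟩ := hB
    refine ⟨n, hn, lt_of_lt_of_le hc (le_of_eq ?_)⟩
    rw [tup_glue hm hl hl' ho1 ho2 hr hne hM (w := glue K0 w0 (ext (K \ K0) r)) (w0 := w0)
      (w1 := ext (K \ K0) r) ?_ ?_ n]
    · rfl
    · intro q hq hq1
      refine glue_mem _ _ _ ((hK0 q).2 ⟨?_, hq1⟩)
      rcases hq with hq | hq
      · exact hK hq
      · exact hK' hq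
    · intro q hq
      exact glue_not_mem _ _ _ (fun h1 => ((hK0 q).1 h1).2 hq)
  · unfold bnd
    rfl

end Pool.Agent.Helper54.T5g
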