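import Pool.Agent.Helper54.T5g.KeysOf
import Pool.Agent.Helper48.T5g.EvDig

/-!
# T5g, (S3): decoding of the newborn triple, of the static levels and of the buffer family across
SPLIT
-/

set_option autoImplicit false

namespace Pool.Agent.Helper54.T5g

open Finset Pool.Agent.Helper27.T4 Pool.Agent.Helper84.T5g Pool.Agent.Helper37.T5g
open Pool.Agent.Helper5.ET (mask bb)
open Pool.Agent.Helper30.T5g (pz QF QT RT ez NL BP)
open Pool.Agent.Helper39.T5 Pool.Agent.Helper50.T5 Pool.Agent.Helper57.T5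
open Pool.Agent.Helper22.HW (Side)
open Pool.Agent.Helper48.T5g (SplitP gS cT)

variable {m : Sq} {k : ℕ}

/-! ## two codes of one triple -/

/-- decoding of the sum of two codes of one triple -/
theorem dec_pairs {p : Fin 3 → ℕ} (hp : ∀ i, (p i).Prime) (hp2 : ∀ i, p i ≠ 2) (z : Fin 3 → ℕ)
    (Y Y' : Finset (Fin 3 → ℕ)) (c c' : (Fin 3 → ℕ) → ℕ)
    (ρ ρ' : ∀ i, (Fin 3 → ℕ) → ZMod (p i ^ z i))
    (hρ : ∀ i x y, (∀ j : Fin 3, j.val < i.val → x j = y j) → ρ i x = ρ i y)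
    (hρ' : ∀ i x y, (∀ j : Fin 3, j.val < i.val → x j = y j) → ρ' i x = ρ' i y)
    (hc : ∀ y ∈ Y, ∀ i, ((c y : ℕ) : ZMod (p i ^ z i)) = Lg (p i) (z i) (y i) + ρ i y)
    (hc' : ∀ y ∈ Y', ∀ i, ((c' y : ℕ) : ZMod (p i ^ z i)) = Lg (p i) (z i) (y i) + ρ' i y)
    (hY : ∀ y ∈ Y, ∀ i, (y i).Prime ∧ (y i).Coprime (p i) ∧ (y i) ^ 2 < p i ^ z i)
    (hY' : ∀ y ∈ Y', ∀ i, (y i).Prime ∧ (y i).Coprime (p i) ∧ (y i) ^ 2 < p i ^ z i)
    {Q : ℕ} (hQ : ∀ i, p i ^ z i ∣ Q) (T : ℕ) :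
    ((Y ×ˢ Y').filter (fun q => c q.1 + c' q.2 ≡ T [MOD Q])).card ≤ ∏ i, (2 * (p i - 1)) := by
  classical
  set S := (Y ×ˢ Y').filter (fun q => c q.1 + c' q.2 ≡ T [MOD Q]) with hS
  set G : (Fin 3 → ℕ) × (Fin 3 → ℕ) → Fin 3 → ℕ × ℕ := fun q i => (q.1 i, q.2 i) with hG
  have h1 : S.card = (S.image G).card := by
    rw [card_image_of_injOn]
    intro q _ q' _ h
    refine Prod.ext ?_ ?_
    · funext i
      exact congrArg Prod.fst (congrFun h i)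
    · funext i
      exact congrArg Prod.snd (congrFun h i)
  rw [h1]
  refine Pool.Agent.Helper3.T4.card_code_pairs_quot hp hp2 z (fun i : Fin 3 => i.val) ρ ρ' hρ hρ'
    (fun i => ((T : ℕ) : ZMod (p i ^ z i))) (fun _ => 0) _ ?_
  intro g hg i
  rw [mem_image] at hg
  obtain ⟨q, hq, rfl⟩ := hg
  rw [hS, mem_filter, mem_product] at hq
  obtain ⟨⟨h2, h3⟩, h4⟩ := hq
  obtain ⟨a1, a2, a3⟩ := hY _ h2 i
  obtain ⟨b1, b2, b3⟩ := hY' _ h3 i
  refine ⟨a1, b1, a2, b2, ?_, ?_⟩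
  · show (q.1 i * q.2 i) / p i ^ (z i + 1) = 0
    refine Nat.div_eq_of_lt ?_
    have h5 : (q.1 i * q.2 i) ^ 2 < (p i ^ z i) ^ 2 := by
      rw [mul_pow, sq (p i ^ z i)]
      exact Nat.mul_lt_mul'' a3 b3
    have h6 := lt_of_pow_lt_pow_left₀ 2 (Nat.zero_le _) h5
    exact h6.trans_le (Nat.pow_le_pow_right (hp i).pos (Nat.le_succ _))
  · show (Lg (p i) (z i) (q.1 i) + ρ i q.1) + (Lg (p i) (z i) (q.2 i) + ρ' i q.2) = _
    rw [← hc _ h2 i, ← hc' _ h3 i, ← Nat.cast_add, ZMod.natCast_eq_natCast_iff]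
    exact h4.of_dvd (hQ i)

/-- the same for primes in given classes -/
theorem dec_pairs_cls {p : Fin 3 → ℕ} (hp : ∀ i, (p i).Prime) (hp2 : ∀ i, p i ≠ 2) (z : Fin 3 → ℕ)
    (Y Y' : Finset (Fin 3 → ℕ)) (c c' : (Fin 3 → ℕ) → ℕ)
    (ρ ρ' : ∀ i, (Fin 3 → ℕ) → ZMod (p i ^ z i))
    (hρ : ∀ i x y, (∀ j : Fin 3, j.val < i.val → x j = y j) → ρ i x = ρ i y)
    (hρ' : ∀ i x y, (∀ j : Fin 3, j.val < i.val → x j = y j) → ρ' i x = ρ' i y)
    (hc : ∀ y ∈ Y, ∀ i, ((c y : ℕ) : ZMod (p i ^ z i)) = Lg (p i) (z i) (y i) + ρ i y)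
    (hc' : ∀ y ∈ Y', ∀ i, ((c' y : ℕ) : ZMod (p i ^ z i)) = Lg (p i) (z i) (y i) + ρ' i y)
    (hY : ∀ y ∈ Y, ∀ i, (y i).Prime ∧ (y i).Coprime (p i) ∧ (y i) ^ 2 < p i ^ z i)
    (hY' : ∀ y ∈ Y', ∀ i, (y i).Prime ∧ (y i).Coprime (p i) ∧ (y i) ^ 2 < p i ^ z i)
    (α β : Fin 3 → ℕ) (hα : ∀ y ∈ Y, ∀ i, y i % p i = α i) (hβ : ∀ y ∈ Y', ∀ i, y i % p i = β i)
    {Q : ℕ} (hQ : ∀ i, p i ^ z i ∣ Q) (T : ℕ) :
    ((Y ×ˢ Y').filter (fun q => c q.1 + c' q.2 ≡ T [MOD Q])).card ≤ 8 := by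
  classical
  set S := (Y ×ˢ Y').filter (fun q => c q.1 + c' q.2 ≡ T [MOD Q]) with hS
  set G : (Fin 3 → ℕ) × (Fin 3 → ℕ) → Fin 3 → ℕ × ℕ := fun q i => (q.1 i, q.2 i) with hG
  have h1 : S.card = (S.image G).card := by
    rw [card_image_of_injOn]
    intro q _ q' _ h
    refine Prod.ext ?_ ?_
    · funext i
      exact congrArg Prod.fst (congrFun h i)
    · funext i
      exact congrArg Prod.snd (congrFun h i)
  rw [h1]
  have h8 := Pool.Agent.Helper99.T5g.card_code_pairs_cls hp hp2 z α β (fun i : Fin 3 => i.val)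
    ρ ρ' hρ hρ' (fun i => ((T : ℕ) : ZMod (p i ^ z i))) (fun _ => 0) (S.image G) ?_
  · rw [Fintype.card_fin] at h8
    exact h8
  intro g hg i
  rw [mem_image] at hg
  obtain ⟨q, hq, rfl⟩ := hg
  rw [hS, mem_filter, mem_product] at hq
  obtain ⟨⟨h2, h3⟩, h4⟩ := hq
  obtain ⟨a1, a2, a3⟩ := hY _ h2 i
  obtain ⟨b1, b2, b3⟩ := hY' _ h3 i
  refine ⟨a1, b1, a2, b2, hα _ h2 i, hβ _ h3 i, ?_, ?_⟩
  · show (q.1 i * q.2 i) / p i ^ (z i + 1) = 0
    refine Nat.div_eq_of_lt ?_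
    have h5 : (q.1 i * q.2 i) ^ 2 < (p i ^ z i) ^ 2 := by
      rw [mul_pow, sq (p i ^ z i)]
      exact Nat.mul_lt_mul'' a3 b3
    have h6 := lt_of_pow_lt_pow_left₀ 2 (Nat.zero_le _) h5
    exact h6.trans_le (Nat.pow_le_pow_right (hp i).pos (Nat.le_succ _))
  · show (Lg (p i) (z i) (q.1 i) + ρ i q.1) + (Lg (p i) (z i) (q.2 i) + ρ' i q.2) = _
    rw [← hc _ h2 i, ← hc' _ h3 i, ← Nat.cast_add, ZMod.natCast_eq_natCast_iff]
    exact h4.of_dvd (hQ i)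

/-- constant of the decoding of a triple -/
noncomputable def C3 (k : ℕ) : ℕ := (2 * BP k) ^ 3

theorem prod_le_C3 (k t : ℕ) : ∏ i : Fin 3, (2 * (pz k t i - 1)) ≤ C3 k := by
  refine (Finset.prod_le_pow_card _ _ (2 * BP k) (fun i _ => ?_)).trans ?_
  · exact Nat.mul_le_mul_left _ ((Nat.sub_le _ _).trans (Pool.Agent.Helper30.T5g.pz_le k t i))
  · rw [Finset.card_univ, Fintype.card_fin]
    exact le_of_eq rfl

theorem C3_pos (k : ℕ) : 0 < C3 k :=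
  pow_pos (Nat.mul_pos (by norm_num) (Pool.Agent.Helper30.T5g.BP_pos k)) _

theorem pz_ne_two (k t : ℕ) (f : Fin 3) : pz k t f ≠ 2 := by
  have h := Pool.Agent.Helper30.T5g.million_lt_pz k t f
  intro h1
  rw [h1] at h
  norm_num at h

theorem pow_dvd_QT (m : Sq) (k t : ℕ) (f : Fin 3) : pz k t f ^ zf m k t f ∣ QT m k t :=
  Finset.dvd_prod_of_mem (fun f => QF m k t f) (Finset.mem_univ f)

theorem mask_prefix {i : Fin 3} {x y : Fin 3 → ℕ} (h : ∀ j : Fin 3, j.val < i.val → x j = y j) :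
    mask (univ.filter (fun g => g < i)) x = mask (univ.filter (fun g => g < i)) y := by
  funext g
  unfold mask
  by_cases hg : g ∈ univ.filter (fun g => g < i)
  · rw [if_pos hg, if_pos hg]
    exact h g (Finset.mem_filter.1 hg).2
  · rw [if_neg hg, if_neg hg]

/-! ## the newborn triple -/

/-- the newborn part of a joint vector -/
def nbV (x : JF → ℕ) : Fin 3 → ℕ := fun f => x (Sum.inr f.succ)

/-- the vectors of the newborn triple in the lower state -/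
noncomputable def Yn (m : Sq) (k l' : ℕ) : Finset (Fin 3 → ℕ) := (XJ m k l').image nbV

theorem Ys_spec {m : Sq} {k l t : ℕ} {y : Fin 3 → ℕ} (hy : y ∈ Ys m k l t) (f : Fin 3) :
    (y f).Prime ∧ (y f).Coprime (pz k (sL m k l - t) f) ∧
      y f ^ 2 < pz k (sL m k l - t) f ^ zf m k (sL m k l - t) f := by
  exact mem_T1.1 (mem_T1_of_Ys hy f)

variable {s l' l : ℕ}

/-- the components of a newborn vector -/
theorem Yn_spec (hm : m.Ok) (h : SplitP m k s l' l) {y : Fin 3 → ℕ} (hy : y ∈ Yn m k l')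
    (f : Fin 3) : (zf m k (s + 1) f = 0 ∧ y f = 1) ∨ (zf m k (s + 1) f ≠ 0 ∧ (y f).Prime ∧
      (y f).Coprime (pz k (s + 1) f) ∧ y f ^ 2 < pz k (s + 1) f ^ zf m k (s + 1) f) := by
  unfold Yn at hy
  rw [mem_image] at hy
  obtain ⟨x, hx, rfl⟩ := hy
  have h1 := mem_XJ.1 hx (Sum.inr f.succ)
  rw [h.s'] at h1
  rw [h.aJ_full hm le_rfl (h.le.trans (Nat.le_add_right _ _)) f] at h1
  exact h1

/-- decoding of the new static level and of the newborn triple -/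
theorem dec_new (hm : m.Ok) (h : SplitP m k s l' l) (w : Key → ℕ) (o : JF → ℕ) (T : ℕ) :
    ((Ys m k l 0 ×ˢ Yn m k l').filter
      (fun q => cs m k l 0 w o q.1 + gS m k s l' w q.2 ≡ T [MOD QT m k (s + 1)])).card ≤
      C3 k := by
  rcases (Ys m k l 0).eq_empty_or_nonempty with h0 | ⟨y0, hy0⟩
  · rw [h0]
    simp
  have hz : ∀ f, zf m k (s + 1) f ≠ 0 := by
    intro f h1
    obtain ⟨a1, a2, a3⟩ := Ys_spec hy0 f
    rw [h.s1, Nat.sub_zero, h1, pow_zero] at a3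
    have := a1.pos
    have h2 : 0 < y0 f ^ 2 := by positivity
    omega
  have hr : 0 < rL m k l := by
    rw [h.rL1]
    omega
  have hcs : ∀ (y : Fin 3 → ℕ) (f : Fin 3), ((cs m k l 0 w o y : ℕ) :
      ZMod (pz k (s + 1) f ^ zf m k (s + 1) f)) = Lg (pz k (s + 1) f) (zf m k (s + 1) f) (y f) +
        ((w (Key.S l 0 f o (mask (univ.filter (fun g => g < f)) y)) : ℕ) :
          ZMod (pz k (s + 1) f ^ zf m k (s + 1) f)) := by
    intro y f
    have h1 := Pool.Agent.Helper48.T5g.cs_cast hm hr w o y f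
    rw [h.s1, Nat.sub_zero] at h1
    exact h1
  refine (dec_pairs (Pool.Agent.Helper84.T5g.pz_prime k (s + 1)) (pz_ne_two k (s + 1))
    (zf m k (s + 1)) (Ys m k l 0) (Yn m k l') (cs m k l 0 w o) (gS m k s l' w)
    (fun f y => ((w (Key.S l 0 f o (mask (univ.filter (fun g => g < f)) y)) : ℕ) :
          ZMod (pz k (s + 1) f ^ zf m k (s + 1) f)))
    (fun f _ => ((w (Key.J l' (Sum.inr f.succ) (fun _ => 0)) : ℕ) :
          ZMod (pz k (s + 1) f ^ zf m k (s + 1) f)))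
    (fun i x y hxy => by rw [mask_prefix hxy]) (fun _ _ _ _ => rfl)
    (fun y _ f => hcs y f) (fun y _ f => Pool.Agent.Helper48.T5g.gS_cast m k s l' w y f)
    ?_ ?_ (pow_dvd_QT m k (s + 1)) T).trans (prod_le_C3 k (s + 1))
  · intro y hy f
    have h1 := Ys_spec hy f
    rw [h.s1, Nat.sub_zero] at h1
    exact h1
  · intro y hy f
    exact ((Yn_spec hm h hy f).resolve_left (fun h1 => hz f h1.1)).2

/-- the number of newborn vectors -/
theorem card_Yn (hm : m.Ok) (h : SplitP m k s l' l) :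
    ((Yn m k l').card : ℝ) ≤ Real.sqrt (QT m k (s + 1)) := by
  have h1 : Yn m k l' ⊆ Fintype.piFinset (fun f : Fin 3 =>
      (Finset.Icc 1 (Nat.sqrt (pz k (s + 1) f ^ zf m k (s + 1) f)))) := by
    intro y hy
    rw [Fintype.mem_piFinset]
    intro f
    rw [mem_Icc]
    rcases Yn_spec hm h hy f with ⟨h2, h3⟩ | ⟨_, h2, _, h3⟩
    · rw [h3, h2, pow_zero]
      exact ⟨le_rfl, by norm_num⟩
    · refine ⟨h2.pos, ?_⟩
      rw [Nat.le_sqrt']
      exact h3.le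
  have h2 := card_le_card h1
  rw [Fintype.card_piFinset] at h2
  have h3 : ((Yn m k l').card : ℝ) ≤ ∏ f : Fin 3,
      Real.sqrt (((pz k (s + 1) f ^ zf m k (s + 1) f : ℕ) : ℝ)) := by
    have h4 : ((Yn m k l').card : ℝ) ≤ ∏ f : Fin 3,
        ((Finset.Icc 1 (Nat.sqrt (pz k (s + 1) f ^ zf m k (s + 1) f))).card : ℝ) := by
      exact_mod_cast h2
    refine h4.trans (Finset.prod_le_prod (fun _ _ => Nat.cast_nonneg _) (fun f _ => ?_))
    rw [Nat.card_Icc, Nat.add_sub_cancel]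
    exact Real.nat_sqrt_le_real_sqrt
  refine h3.trans (le_of_eq ?_)
  have h5 : (QT m k (s + 1) : ℝ) = ∏ f : Fin 3, ((pz k (s + 1) f ^ zf m k (s + 1) f : ℕ) : ℝ) := by
    unfold QT QF
    push_cast
    rfl
  rw [h5, Real.sqrt_prod _ (fun _ _ => Nat.cast_nonneg _)]

/-! ## the buffer family -/

/-- the pairs of buffer coordinates with a given sum -/
theorem buf_pairs (hm : m.Ok) (h : SplitP m k s l' l) (w : Key → ℕ) (n : ℕ) :
    (((XJ m k l ×ˢ XJ m k l').filter (fun q => c0 m k l w q.1 + c0 m k l' w q.2 ≡ n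
      [MOD 1000039 ^ cT m k (Sum.inr none) l'])).image
        (fun q => (q.1 (Sum.inr 0), q.2 (Sum.inr 0)))).card ≤ 2 * 1000038 := by
  classical
  set a := cT m k (Sum.inr none) l' with ha
  have hal : cT m k (Sum.inr none) l = a := h.ct_l hm (by simp)
  have hx1 : ∀ x ∈ XJ m k l, (a = 0 ∧ x (Sum.inr 0) = 1) ∨ (a ≠ 0 ∧ (x (Sum.inr 0)).Prime ∧
      (x (Sum.inr 0)).Coprime 1000039 ∧ x (Sum.inr 0) ^ 2 < 1000039 ^ a) := by
    intro x hx
    have h1 := mem_XJ.1 hx (Sum.inr 0)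
    rw [pJ_zero, Pool.Agent.Helper48.T5g.aJ_buf, hal] at h1
    exact h1
  have hx2 : ∀ x ∈ XJ m k l', (a = 0 ∧ x (Sum.inr 0) = 1) ∨ (a ≠ 0 ∧ (x (Sum.inr 0)).Prime ∧
      (x (Sum.inr 0)).Coprime 1000039 ∧ x (Sum.inr 0) ^ 2 < 1000039 ^ a) := by
    intro x hx
    have h1 := mem_XJ.1 hx (Sum.inr 0)
    rw [pJ_zero, Pool.Agent.Helper48.T5g.aJ_buf] at h1
    exact h1
  have hc1 : ∀ x : JF → ℕ, ((c0 m k l w x : ℕ) : ZMod (1000039 ^ a)) =
      Lg 1000039 a (x (Sum.inr 0)) + ((w (Key.J l (Sum.inr 0) (fun _ => 0)) : ℕ) :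
        ZMod (1000039 ^ a)) := by
    intro x
    have h1 := Pool.Agent.Helper48.T5g.c0_cast m k l w x (Sum.inr 0)
    rw [show preJ m k l (Sum.inr 0) = ∅ from rfl, Pool.Agent.Helper48.T5g.maskJ_empty] at h1
    have h2 : aJ m k (sL m k l) (ef m k l 0) (Sum.inr 0) = a := h.ct_ef hm 0 (by simp)
    exact Pool.Agent.Helper48.T5g.cast_congr2 (pJ_zero k (sL m k l)) h2 h1
  have hc2 : ∀ x : JF → ℕ, ((c0 m k l' w x : ℕ) : ZMod (1000039 ^ a)) =
      Lg 1000039 a (x (Sum.inr 0)) + ((w (Key.J l' (Sum.inr 0) (fun _ => 0)) : ℕ) :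
        ZMod (1000039 ^ a)) := by
    intro x
    have h1 := Pool.Agent.Helper48.T5g.c0_cast m k l' w x (Sum.inr 0)
    rw [show preJ m k l' (Sum.inr 0) = ∅ from rfl, Pool.Agent.Helper48.T5g.maskJ_empty] at h1
    have h2 : aJ m k (sL m k l') (ef m k l' 0) (Sum.inr 0) = a := h.ct_ef' hm 0 (by simp)
    exact Pool.Agent.Helper48.T5g.cast_congr2 (pJ_zero k (sL m k l')) h2 h1
  rcases Nat.eq_zero_or_pos a with h0 | h0
  · refine (card_le_card (t := {(1, 1)}) ?_).trans (by rw [card_singleton]; norm_num)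
    intro z hz
    rw [mem_image] at hz
    obtain ⟨q, hq, rfl⟩ := hz
    rw [mem_filter, mem_product] at hq
    rw [mem_singleton]
    have h1 := (hx1 _ hq.1.1).resolve_right (fun h3 => h3.1 h0)
    have h2 := (hx2 _ hq.1.2).resolve_right (fun h3 => h3.1 h0)
    exact Prod.ext h1.2 h2.2
  · have hprime : (1000039 : ℕ).Prime := by norm_num
    refine Pool.Agent.Helper3.T4.card_pairs_quot hprime (by norm_num) a 0
      (((n : ℕ) : ZMod (1000039 ^ a)) - ((w (Key.J l (Sum.inr 0) (fun _ => 0)) : ℕ) :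
        ZMod (1000039 ^ a)) - ((w (Key.J l' (Sum.inr 0) (fun _ => 0)) : ℕ) :
        ZMod (1000039 ^ a))) _ ?_
    intro z hz
    rw [mem_image] at hz
    obtain ⟨q, hq, rfl⟩ := hz
    rw [mem_filter, mem_product] at hq
    obtain ⟨-, a1, a2, a3⟩ := (hx1 _ hq.1.1).resolve_left (fun h3 => h0.ne' h3.1)
    obtain ⟨-, b1, b2, b3⟩ := (hx2 _ hq.1.2).resolve_left (fun h3 => h0.ne' h3.1)
    refine ⟨a1, b1, a2, b2, ?_, ?_⟩
    · show (q.1 (Sum.inr 0) * q.2 (Sum.inr 0)) / 1000039 ^ (a + 1) = 0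
      refine Nat.div_eq_of_lt ?_
      have h5 : (q.1 (Sum.inr 0) * q.2 (Sum.inr 0)) ^ 2 < (1000039 ^ a) ^ 2 := by
        rw [mul_pow, sq (1000039 ^ a)]
        exact Nat.mul_lt_mul'' a3 b3
      have h6 := lt_of_pow_lt_pow_left₀ 2 (Nat.zero_le _) h5
      exact h6.trans_le (Nat.pow_le_pow_right (by norm_num) (Nat.le_succ _))
    · show Lg 1000039 a (q.1 (Sum.inr 0)) + Lg 1000039 a (q.2 (Sum.inr 0)) = _
      have h5 := (ZMod.natCast_eq_natCast_iff _ _ _).2 hq.2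
      rw [Nat.cast_add, hc1, hc2] at h5
      rw [← h5]
      ring

end Pool.Agent.Helper54.T5g
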