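import Pool.Agent.Helper54.T5g.S3Core
import Pool.Agent.Helper37.T5g.OneEvent

/-!
# T5g, (S3): the union over the outer keys
-/

set_option autoImplicit false

namespace Pool.Agent.Helper54.T5g

open Finset Pool.Agent.Helper27.T4 Pool.Agent.Helper84.T5g Pool.Agent.Helper37.T5g
open Pool.Agent.Helper5.ET (mask bb)
open Pool.Agent.Helper30.T5g (pz QF QT RT ez NL BP)
open Pool.Agent.Helper39.T5 Pool.Agent.Helper50.T5 Pool.Agent.Helper57.T5
open Pool.Agent.Helper3.T5 (MP)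
open Pool.Agent.Helper48.T5g (SplitP gS cT)
open Pool.Agent.Helper45.T5g (IsWinB OK)
open Pool.Agent.Helper45.T5 (RegSet)
open Pool.Agent.Helper54.T5 (cdQ)
open Pool.Agent.Helper22.SL

variable {m : Sq} {k s l' l : ℕ}

/-- **the union over the outer keys** -/
theorem s3_all (hm : m.Ok) (h : SplitP m k s l' l) (hd : SplitDig m k l' l)
    (hk : ¬ keyed m k (mL m k l'))
    (hl : bb 0 ≤ mL m k l) (hl' : bb 0 ≤ mL m k l')
    (hdb' : ∀ t < rL m k l', 2 * (FF m k l' t * LL (QQ m k (sL m k l')) t) ≤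
      FF m k l' (t + 1) * LL (QQ m k (sL m k l')) (t + 1))
    (hNL' : 2 * (FF m k l' (rL m k l') * LL (QQ m k (sL m k l')) (rL m k l')) ≤ NL m k l')
    (hV : Un m k l' * (16 * RT m k (bL m k l')) ≤ Un m k l)
    (hnum : ∀ o o' : JF → ℕ, ∀ nB nR nY : ℕ, nB ≤ 17 * RT m k (sL m k l') →
      nR ≤ ⌈(10 : ℝ) ^ (6 * (2 * SS m (sL m k l'))) * (1 + ((FF m k l 0 : ℝ) +
        Jn m k (sL m k l) (ef m k l' 0) * QT m k (sL m k l)) /
          (Jn m k (sL m k l) l * Real.sqrt (QT m k (sL m k l))))⌉₊ →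
      (nY : ℝ) ≤ Real.sqrt (QT m k (sL m k l)) →
      ((nB * nR : ℕ) : ℝ) * (nY * ((MSp m k l' l o o').C * (MSp m k l' l o o').Lam *
        (min (1 / (QT m k (sL m k l) : ℝ)) (((MSp m k l' l o o').Ne' : ℝ) /
          (MSp m k l' l o o').Ne) + 1 / (MSp m k l' l o o').q))) ≤
        Real.exp (-(SS m (sL m k l') : ℝ)))
    (hrg : ∀ (w : Key → ℕ) (n : ℕ), 0 < Rp m k l l' w n → n < 34 * NL m k l)
    {K : Finset Key} (hK : keysOf m k l ⊆ K) (hK' : keysOf m k l' ⊆ K) {δ : ℝ}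
    (hreg : PrG (Mk m k) K (fun w => ¬ GoodR m k l w) δ) (mm : ℕ) :
    PrG (Mk m k) K (fun w => ∃ n, 2 * 1000038 *
      (2 * ((MSp m k l' l 0 0).C * (C3 k * 8 ^ k)) * mm) < Rp m k l l' w n)
      (δ + ((OK m k l 0).card * (OK m k l' 0).card : ℕ) * bnd m k l' l mm) := by
  classical
  obtain ⟨K0, hK0e⟩ : ∃ K0 : Finset Key, K0 = K.filter (fun q => ¬ isMn l' l q) := ⟨_, rfl⟩
  have hK0 : ∀ q, q ∈ K0 ↔ q ∈ K ∧ ¬ isMn l' l q := by
    intro q
    rw [hK0e, mem_filter]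
  have hsub : K0 ⊆ K := fun q hq => ((hK0 q).1 hq).1
  have hb0 : 0 ≤ bnd m k l' l mm := by
    unfold bnd
    positivity
  have hdep : DepOn K0 (fun w => ¬ GoodR m k l w) := by
    intro w w' hw
    have hag : ∀ q ∈ keysOf m k l, ¬ isMn l' l q → w q = w' q := fun q hq hq1 =>
      hw q ((hK0 q).2 ⟨hK hq, hq1⟩)
    show (¬ GoodR m k l w) ↔ ¬ GoodR m k l w'
    rw [not_iff_not]
    exact ⟨GoodR_congr hm hl (P := fun q => ¬ isMn l' l q) hag (fun _ _ _ _ h => h)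
      (fun _ _ h => h), GoodR_congr hm hl (P := fun q => ¬ isMn l' l q)
        (fun q hq hq1 => (hag q hq hq1).symm) (fun _ _ _ _ h => h) (fun _ _ h => h)⟩
  have hreg0 : PrG (Mk m k) K0 (fun w => ¬ GoodR m k l w) δ :=
    (PrG_dep_iff (Pool.Agent.Helper84.T5g.Mk_pos m k) hsub hdep).1 hreg
  refine PrG_cond_bad hsub (mul_nonneg (Nat.cast_nonneg _) hb0) hreg0 (fun r0 _ hgood => ?_)
  rw [not_not] at hgood
  have hM : ∀ o o' : JF → ℕ, (MSp m k l' l o o').Ok (Mk m k) := fun o o' => MSp_ok hd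
  have hun := PrG_exists (Mk := Mk m k) (K := K \ K0) (OK m k l 0 ×ˢ OK m k l' 0)
    (B := fun q w => ∃ n < 34 * NL m k l,
      2 * ((MSp m k l' l q.1 q.2).C * (C3 k * 8 ^ k)) * mm <
        (tup m k s l' l q.1 q.2 (hM q.1 q.2) (glue K0 (ext K0 r0) w) n).card)
    (ε := fun _ => bnd m k l' l mm) (fun q hq => by
      rw [mem_product] at hq
      exact s3_fix hm h hd hl hl' hdb' hNL' hV hnum hK hK' hK0 hgood hq.1 hq.2 (hM q.1 q.2) mm)
  refine PrG_mono ?_ (le_of_eq ?_) hun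
  · intro r _ hB
    obtain ⟨n, hn⟩ := hB
    have hn1 : n < 34 * NL m k l := hrg _ n (lt_of_le_of_lt (Nat.zero_le _) hn)
    by_contra hcon
    push Not at hcon
    have h1 := Rp_le_tup hm h hd hk (glue K0 (ext K0 r0) (ext (K \ K0) r)) n
      (2 * ((MSp m k l' l 0 0).C * (C3 k * 8 ^ k)) * mm) hM (fun o ho o' ho' =>
        hcon (o, o') (mem_product.2 ⟨ho, ho'⟩) n hn1)
    exact absurd hn (not_lt.2 h1)
  · rw [sum_const, card_product, nsmul_eq_mul]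

end Pool.Agent.Helper54.T5g
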