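import Pool.Agent.Helper54.T5g.S3Dec
import Pool.Agent.Helper45.T5g.WinB

/-!
# T5g, (S3): the windows of the two states across SPLIT
-/

set_option autoImplicit false

namespace Pool.Agent.Helper54.T5g

open Finset Pool.Agent.Helper27.T4 Pool.Agent.Helper84.T5g Pool.Agent.Helper37.T5g
open Pool.Agent.Helper5.ET (mask bb)
open Pool.Agent.Helper30.T5g (pz QF QT RT ez NL BP)
open Pool.Agent.Helper39.T5 Pool.Agent.Helper50.T5 Pool.Agent.Helper57.T5
open Pool.Agent.Helper22.HW (Side)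
open Pool.Agent.Helper48.T5g (SplitP gS cT)
open Pool.Agent.Helper45.T5g (IsWinB sum_cs_le)

variable {m : Sq} {k : ℕ}

/-! ## the windows with an outer key -/

theorem Vw_lt {m : Sq} {k l : ℕ} {w : Key → ℕ} {v : ℕ} (hv : v ∈ Vw m k l w) :
    v < 16 * RT m k (bL m k l) := by
  have h1 := Pool.Agent.Helper30.T5g.RT_pos m k (bL m k l)
  unfold Vw at hv
  rw [mem_singleton] at hv
  omega

/-- the outer key of the level `t`, if `o` is the one of the level `0` -/
def oo (o : JF → ℕ) (t : ℕ) : JF → ℕ := if t = 0 then o else 0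

theorem oo_okey (m : Sq) (k l : ℕ) (x : JF → ℕ) (t : ℕ) : oo (okey m k l 0 x) t = okey m k l t x := by
  unfold oo okey
  rw [if_pos rfl]

/-- the part of the elements below the static level `h` -/
noncomputable def Zo (m : Sq) (k l h : ℕ) (w : Key → ℕ) (o : JF → ℕ) : Finset ℕ :=
  ((Fintype.piFinset (fun u : Fin (rL m k l - h) => Ys m k l (h + u))) ×ˢ Vw m k l w).image
    (fun q => ∑ u : Fin (rL m k l - h), cs m k l (h + u) w (oo o (h + u)) (q.1 u) +
      Un m k l * q.2)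

theorem mem_Zo {l h : ℕ} {w : Key → ℕ} {o : JF → ℕ} {u : ℕ} : u ∈ Zo m k l h w o ↔
    ∃ y : ℕ → Fin 3 → ℕ, (∀ t, h ≤ t → t < rL m k l → y t ∈ Ys m k l t) ∧ ∃ v ∈ Vw m k l w,
      u = ∑ t ∈ Ico h (rL m k l), cs m k l t w (oo o t) (y t) + Un m k l * v := by
  unfold Zo
  simp only [mem_image, mem_product, Fintype.mem_piFinset, Prod.exists]
  set r := rL m k l with hr
  have key : ∀ g : ℕ → ℕ, ∑ t ∈ Ico h r, g t = ∑ t : Fin (r - h), g (h + t) := by
    intro g
    rw [Finset.sum_Ico_eq_sum_range, ← Fin.sum_univ_eq_sum_range (fun i => g (h + i))]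
  constructor
  · rintro ⟨y, v, ⟨hy, hv⟩, rfl⟩
    refine ⟨fun t => if h' : t - h < r - h then y ⟨t - h, h'⟩ else 0, ?_, v, hv, ?_⟩
    · intro t h1 h2
      have h3 : t - h < r - h := by omega
      have h4 := hy ⟨t - h, h3⟩
      simp only [show h + (t - h) = t by omega] at h4
      simp only [dif_pos h3]
      exact h4
    · congr 1
      rw [key]
      refine Finset.sum_congr rfl (fun t _ => ?_)
      have h3 : h + (t : ℕ) - h < r - h := by have := t.2; omega
      have h4 : (⟨h + (t : ℕ) - h, h3⟩ : Fin (r - h)) = t := Fin.ext (by simp)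
      simp only [dif_pos h3, h4]
  · rintro ⟨y, hy, v, hv, rfl⟩
    refine ⟨fun t => y (h + t), v, ⟨fun t => hy _ (by omega) (by have := t.2; omega), hv⟩, ?_⟩
    rw [key]

/-- an element of a state -/
theorem mem_AA_Zo {l a : ℕ} {w : Key → ℕ} (ha : a ∈ AA m k l w) : ∃ x ∈ XJ m k l,
    ∃ b ∈ Zo m k l 0 w (okey m k l 0 x), a = c0 m k l w x + b := by
  unfold AA at ha
  rw [mem_image] at ha
  obtain ⟨⟨⟨x, y⟩, u⟩, hq, rfl⟩ := ha
  simp only [mem_product, Fintype.mem_piFinset, mem_image] at hq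
  obtain ⟨⟨hx, hy⟩, v, hv, rfl⟩ := hq
  refine ⟨x, hx, _, mem_Zo.2 ⟨fun t => if h : t < rL m k l then y ⟨t, h⟩ else 0, ?_, v, hv, rfl⟩,
    ?_⟩
  · intro t _ h2
    simp only [dif_pos h2]
    exact hy ⟨t, h2⟩
  · unfold el
    simp only
    rw [add_assoc]
    congr 2
    rw [← Finset.range_eq_Ico, ← Fin.sum_univ_eq_sum_range (fun t => cs m k l t w
      (oo (okey m k l 0 x) t) (if h : t < rL m k l then y ⟨t, h⟩ else 0)) (rL m k l)]
    refine Finset.sum_congr rfl (fun t _ => ?_)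
    rw [oo_okey, dif_pos t.2]

/-- the first level -/
theorem Zo_cons {l b : ℕ} {w : Key → ℕ} {o : JF → ℕ} (hr : 0 < rL m k l)
    (hb : b ∈ Zo m k l 0 w o) : b ∈ (Ys m k l 0 ×ˢ Zo m k l 1 w 0).image
      (fun z => cs m k l 0 w o z.1 + z.2) := by
  obtain ⟨y, hy, v, hv, rfl⟩ := mem_Zo.1 hb
  rw [mem_image]
  refine ⟨(y 0, ∑ t ∈ Ico 1 (rL m k l), cs m k l t w (oo 0 t) (y t) + Un m k l * v), ?_, ?_⟩
  · rw [mem_product]
    exact ⟨hy 0 le_rfl hr, mem_Zo.2 ⟨y, fun t h1 h2 => hy t (Nat.zero_le _) h2, v, hv, rfl⟩⟩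
  · simp only
    rw [Finset.sum_eq_sum_Ico_succ_bot hr, ← add_assoc]
    congr 2
    refine Finset.sum_congr rfl (fun t ht => ?_)
    have h1 := (mem_Ico.1 ht).1
    unfold oo
    rw [if_neg (by omega), if_neg (by omega)]

/-- the elements with the first level are windows -/
theorem Zo_of_cons {l b : ℕ} {w : Key → ℕ} {o : JF → ℕ} (hr : 0 < rL m k l)
    (hb : b ∈ (Ys m k l 0 ×ˢ Zo m k l 1 w 0).image (fun z => cs m k l 0 w o z.1 + z.2)) :
    b ∈ Zo m k l 0 w o := by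
  rw [mem_image] at hb
  obtain ⟨⟨y0, b1⟩, h1, rfl⟩ := hb
  rw [mem_product] at h1
  obtain ⟨h1, h2⟩ := h1
  obtain ⟨y, hy, v, hv, hb1⟩ := mem_Zo.1 h2
  simp only at h1 hb1 ⊢
  rw [mem_Zo]
  refine ⟨fun t => if t = 0 then y0 else y t, ?_, v, hv, ?_⟩
  · intro t _ h3
    simp only
    split_ifs with h4
    · rw [h4]
      exact h1
    · exact hy t (by omega) h3
  · rw [hb1, Finset.sum_eq_sum_Ico_succ_bot hr, ← add_assoc]
    simp only [if_true]
    congr 2
    refine Finset.sum_congr rfl (fun t ht => ?_)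
    have h3 := (mem_Ico.1 ht).1
    unfold oo
    rw [if_neg (by omega), if_neg (by omega), if_neg (by omega)]

theorem dvd_Zo (hm : m.Ok) {l h : ℕ} {w : Key → ℕ} {o : JF → ℕ} (hs : h ≤ rL m k l) {u : ℕ}
    (hu : u ∈ Zo m k l h w o) : Jn m k (sL m k l) l * LL (QQ m k (sL m k l)) h ∣ u := by
  obtain ⟨y, hy, v, hv, rfl⟩ := mem_Zo.1 hu
  refine dvd_add (Finset.dvd_sum (fun t ht => ?_)) ?_
  · rw [mem_Ico] at ht
    refine dvd_trans ?_ (Pool.Agent.Helper48.T5g.cs_dvd m k l t w _ (y t))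
    exact Nat.mul_dvd_mul (Pool.Agent.Helper48.T5g.Jn_dvd m k _
      (Pool.Agent.Helper48.T5g.lt_ef hm l (t + 1)).le) (LL_dvd _ ht.1)
  · refine Dvd.dvd.mul_right ?_ _
    unfold Un
    exact Nat.mul_dvd_mul_left _ (LL_dvd _ hs)

theorem isWinB_Zo (hm : m.Ok) {l b : ℕ} {w : Key → ℕ} {o : ℕ → JF → ℕ} {o0 : JF → ℕ}
    (ho : ∀ t < rL m k l, o t = oo o0 t)
    (hb : Jn m k (sL m k l) l * b ∈ Zo m k l 0 w o0) : IsWinB m k l 0 w o b := by
  obtain ⟨y, hy, v, hv, h1⟩ := mem_Zo.1 hb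
  refine ⟨y, hy, v, hv, ?_⟩
  rw [LL_zero, mul_one, h1]
  congr 1
  refine Finset.sum_congr rfl (fun t ht => ?_)
  rw [mem_Ico] at ht
  rw [ho t ht.2]

/-- size of a window -/
theorem Zo_lt (hm : m.Ok) {l : ℕ} {w : Key → ℕ} {o : JF → ℕ} (hl : bb 0 ≤ mL m k l)
    (hdb : ∀ t < rL m k l, 2 * (FF m k l t * LL (QQ m k (sL m k l)) t) ≤
      FF m k l (t + 1) * LL (QQ m k (sL m k l)) (t + 1))
    (hNL : 2 * (FF m k l (rL m k l) * LL (QQ m k (sL m k l)) (rL m k l)) ≤ NL m k l) {u : ℕ}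
    (hu : u ∈ Zo m k l 0 w o) : u < 17 * NL m k l := by
  obtain ⟨y, hy, v, hv, rfl⟩ := mem_Zo.1 hu
  have h1 := sum_cs_le hdb w (oo o) y (rL m k l) le_rfl
  rw [← Finset.range_eq_Ico]
  have hv2 : v < 16 * RT m k (bL m k l) := Vw_lt hv
  have h3 := Pool.Agent.Helper27.T5g.Un_mul_RT (k := k) hm hl
  have h4 : Un m k l * v < Un m k l * (16 * RT m k (bL m k l)) :=
    Nat.mul_lt_mul_of_pos_left hv2 (Pool.Agent.Helper27.T5g.Un_pos m k l)
  have h5 : Un m k l * (16 * RT m k (bL m k l)) = 16 * NL m k l := by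
    rw [← h3]
    ring
  omega

/-- the number of windows, trivially -/
theorem card_Zo (hm : m.Ok) {l : ℕ} {w : Key → ℕ} {o : JF → ℕ} (hl : bb 0 ≤ mL m k l)
    (hdb : ∀ t < rL m k l, 2 * (FF m k l t * LL (QQ m k (sL m k l)) t) ≤
      FF m k l (t + 1) * LL (QQ m k (sL m k l)) (t + 1))
    (hNL : 2 * (FF m k l (rL m k l) * LL (QQ m k (sL m k l)) (rL m k l)) ≤ NL m k l) :
    (Zo m k l 0 w o).card ≤ 17 * RT m k (sL m k l) := by
  have hJ := Pool.Agent.Helper27.T5g.Jn_pos m k (sL m k l) l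
  have h4 := Pool.Agent.Helper27.T5g.Jn_mul_RT (Pool.Agent.Helper27.T5g.cpl_self (k := k) hm hl)
  refine (card_le_card_of_injOn (fun u => u / Jn m k (sL m k l) l)
    (t := range (17 * RT m k (sL m k l))) ?_ ?_).trans (card_range _).le
  · intro u hu
    have h1 := Zo_lt hm hl hdb hNL (mem_coe.1 hu)
    rw [coe_range, Set.mem_Iio, Nat.div_lt_iff_lt_mul hJ]
    calc u < 17 * NL m k l := h1
      _ = 17 * RT m k (sL m k l) * Jn m k (sL m k l) l := by
          rw [← h4]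
          ring
  · intro u hu u' hu' h
    have h1 := dvd_Zo hm (Nat.zero_le _) (mem_coe.1 hu)
    have h2 := dvd_Zo hm (Nat.zero_le _) (mem_coe.1 hu')
    rw [LL_zero, mul_one] at h1 h2
    have h3 : u / Jn m k (sL m k l) l = u' / Jn m k (sL m k l) l := h
    rw [← Nat.mul_div_cancel' h1, ← Nat.mul_div_cancel' h2, h3]

/-! ## the windows depend on the keys of the static levels and of the window only -/

theorem Zo_congr (hm : m.Ok) {l : ℕ} (hl : bb 0 ≤ mL m k l) {w w' : Key → ℕ} {P : Key → Prop}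
    (h : ∀ q ∈ keysOf m k l, P q → w q = w' q) (hP : ∀ t f o y, P (Key.S l t f o y))
    (hV : ∀ L b, P (Key.V l L b)) {o : JF → ℕ} (ho : ∀ j, o j < Bd m k l) (s : ℕ) :
    Zo m k l s w o = Zo m k l s w' o := by
  have hoo : ∀ t j, oo o t j < Bd m k l := by
    intro t j
    unfold oo
    split_ifs
    · exact ho j
    · exact Bd_pos m k l
  ext u
  rw [mem_Zo, mem_Zo, Vw_congr m k l w w']
  have key : ∀ y : ℕ → Fin 3 → ℕ, (∀ t, s ≤ t → t < rL m k l → y t ∈ Ys m k l t) →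
      ∑ t ∈ Ico s (rL m k l), cs m k l t w (oo o t) (y t) =
        ∑ t ∈ Ico s (rL m k l), cs m k l t w' (oo o t) (y t) := by
    intro y hy
    refine Finset.sum_congr rfl (fun t ht => ?_)
    rw [mem_Ico] at ht
    exact cs_congr hm hl h hP ht.2 (hoo t) (hy t ht.1 ht.2)
  constructor
  · rintro ⟨y, hy, v, hv, rfl⟩
    exact ⟨y, hy, v, hv, by rw [key y hy]⟩
  · rintro ⟨y, hy, v, hv, rfl⟩
    exact ⟨y, hy, v, hv, by rw [key y hy]⟩

/-! ## the leaf -/

variable {s l' l : ℕ}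

theorem LL_add1 (Q : ℕ → ℕ) (t : ℕ) : LL Q (1 + t) = LL Q 1 * LL (fun i => Q (1 + i)) t := by
  unfold LL
  rw [Finset.prod_range_add]

/-- decoding of one static level of the two states -/
theorem dec_level (hm : m.Ok) (h : SplitP m k s l' l) (w : Key → ℕ) (o o' : JF → ℕ) {t : ℕ}
    (ht : t < k) (T : ℕ) : ((Ys m k l (1 + t) ×ˢ Ys m k l' t).filter
      (fun q => cs m k l (1 + t) w o q.1 + cs m k l' t w o' q.2 ≡ T
        [MOD QQ m k (s + 1) (1 + t)])).card ≤ 8 := by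
  have e1 : sL m k l - (1 + t) = s - t := by
    have := h.s1
    omega
  have e2 : sL m k l' - t = s - t := by rw [h.s']
  have e3 : QQ m k (s + 1) (1 + t) = QT m k (s - t) := by
    unfold QQ
    congr 1
    omega
  have hr : 1 + t < rL m k l := by
    rw [h.rL1]
    omega
  have hr' : t < rL m k l' := by
    rw [h.rL']
    exact ht
  rw [e3]
  have hc : ∀ (y : Fin 3 → ℕ) (f : Fin 3), ((cs m k l (1 + t) w o y : ℕ) :
      ZMod (pz k (s - t) f ^ zf m k (s - t) f)) = Lg (pz k (s - t) f) (zf m k (s - t) f) (y f) +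
        ((w (Key.S l (1 + t) f o (mask (univ.filter (fun g => g < f)) y)) : ℕ) :
          ZMod (pz k (s - t) f ^ zf m k (s - t) f)) := by
    intro y f
    have h1 := Pool.Agent.Helper48.T5g.cs_cast hm hr w o y f
    rw [e1] at h1
    exact h1
  have hc' : ∀ (y : Fin 3 → ℕ) (f : Fin 3), ((cs m k l' t w o' y : ℕ) :
      ZMod (pz k (s - t) f ^ zf m k (s - t) f)) = Lg (pz k (s - t) f) (zf m k (s - t) f) (y f) +
        ((w (Key.S l' t f o' (mask (univ.filter (fun g => g < f)) y)) : ℕ) :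
          ZMod (pz k (s - t) f ^ zf m k (s - t) f)) := by
    intro y f
    have h1 := Pool.Agent.Helper48.T5g.cs_cast hm hr' w o' y f
    rw [e2] at h1
    exact h1
  refine dec_pairs_cls (Pool.Agent.Helper84.T5g.pz_prime k (s - t)) (pz_ne_two k (s - t))
    (zf m k (s - t)) (Ys m k l (1 + t)) (Ys m k l' t) (cs m k l (1 + t) w o) (cs m k l' t w o')
    (fun f y => ((w (Key.S l (1 + t) f o (mask (univ.filter (fun g => g < f)) y)) : ℕ) :
          ZMod (pz k (s - t) f ^ zf m k (s - t) f)))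
    (fun f y => ((w (Key.S l' t f o' (mask (univ.filter (fun g => g < f)) y)) : ℕ) :
          ZMod (pz k (s - t) f ^ zf m k (s - t) f)))
    (fun i x y hxy => by rw [mask_prefix hxy]) (fun i x y hxy => by rw [mask_prefix hxy])
    (fun y _ f => hc y f) (fun y _ f => hc' y f)
    ?_ ?_ (fun f => Pool.Agent.Helper99.T5g.cls (pz k (s - t) f) (zf m k (s - t) f))
    (fun f => Pool.Agent.Helper99.T5g.cls (pz k (s - t) f) (zf m k (s - t) f))
    (fun y hy f => by
      have h1 := Pool.Agent.Helper84.T5g.mod_of_Ys hy f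
      rw [e1] at h1
      exact h1)
    (fun y hy f => by
      have h1 := Pool.Agent.Helper84.T5g.mod_of_Ys hy f
      rw [e2] at h1
      exact h1) (pow_dvd_QT m k (s - t)) T
  · intro y hy f
    have h1 := Ys_spec hy f
    rw [e1] at h1
    exact h1
  · intro y hy f
    have h1 := Ys_spec hy f
    rw [e2] at h1
    exact h1

/-- **The leaf across SPLIT**: the lower window is short -/
theorem leaf_Zo (hm : m.Ok) (h : SplitP m k s l' l) (w : Key → ℕ) (o' : JF → ℕ)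
    (hV : Un m k l' * (16 * RT m k (bL m k l')) ≤ Un m k l) (n : ℕ) :
    ((Zo m k l 1 w 0 ×ˢ Zo m k l' 0 w o').filter (fun q => q.1 + q.2 = n)).card ≤ 8 ^ k := by
  classical
  have hr : rL m k l - 1 = k := by
    rw [h.rL1]
    omega
  have hr' : rL m k l' = k := h.rL'
  have hs := h.s1
  have hs' := h.s'
  -- the parameters
  set P : Finset (Fin k → (Fin 3 → ℕ) × (Fin 3 → ℕ)) :=
    Fintype.piFinset (fun t : Fin k => Ys m k l (1 + t) ×ˢ Ys m k l' t) with hP
  set S := (P ×ˢ (Vw m k l w ×ˢ Vw m k l' w)).filter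
    (fun q => (∑ t : Fin k, (cs m k l (1 + t) w 0 (q.1 t).1 + cs m k l' t w (oo o' t) (q.1 t).2)) +
      (Un m k l * q.2.1 + Un m k l' * q.2.2) = n) with hS
  have hex : ∀ q ∈ (Zo m k l 1 w 0 ×ˢ Zo m k l' 0 w o').filter (fun q => q.1 + q.2 = n),
      ∃ z ∈ S, (∑ t : Fin k, cs m k l (1 + t) w 0 (z.1 t).1 + Un m k l * z.2.1,
        ∑ t : Fin k, cs m k l' t w (oo o' t) (z.1 t).2 + Un m k l' * z.2.2) = q := by
    rintro ⟨a, b⟩ hq
    rw [mem_filter, mem_product] at hq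
    obtain ⟨⟨ha, hb⟩, hn⟩ := hq
    obtain ⟨y, hy, v, hv, ha⟩ := mem_Zo.1 ha
    obtain ⟨y', hy', v', hv', hb⟩ := mem_Zo.1 hb
    have ea : a = ∑ t : Fin k, cs m k l (1 + t) w 0 (y (1 + t)) + Un m k l * v := by
      simp only at ha
      rw [ha, Finset.sum_Ico_eq_sum_range, hr,
        ← Fin.sum_univ_eq_sum_range (fun i => cs m k l (1 + i) w (oo 0 (1 + i)) (y (1 + i)))]
      congr 1
      refine Finset.sum_congr rfl (fun t _ => ?_)
      unfold oo
      rw [if_neg (by omega)]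
    have eb : b = ∑ t : Fin k, cs m k l' t w (oo o' t) (y' t) + Un m k l' * v' := by
      simp only at hb
      rw [hb, ← Finset.range_eq_Ico, hr',
        ← Fin.sum_univ_eq_sum_range (fun i => cs m k l' i w (oo o' i) (y' i))]
    refine ⟨(fun t => (y (1 + t), y' t), (v, v')), ?_, ?_⟩
    · rw [hS, mem_filter, mem_product, mem_product, hP, Fintype.mem_piFinset]
      refine ⟨⟨fun t => mem_product.2 ⟨hy _ (by omega) (by have := t.2; omega),
        hy' _ (Nat.zero_le _) (by have := t.2; omega)⟩, hv, hv'⟩, ?_⟩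
      simp only at hn ⊢
      rw [Finset.sum_add_distrib, ← hn, ea, eb]
      ring
    · exact Prod.ext ea.symm eb.symm
  have h1 : ((Zo m k l 1 w 0 ×ˢ Zo m k l' 0 w o').filter (fun q => q.1 + q.2 = n)) ⊆
      S.image (fun z => (∑ t : Fin k, cs m k l (1 + t) w 0 (z.1 t).1 + Un m k l * z.2.1,
        ∑ t : Fin k, cs m k l' t w (oo o' t) (z.1 t).2 + Un m k l' * z.2.2)) := by
    intro q hq
    obtain ⟨z, hz, hzq⟩ := hex q hq
    exact mem_image.2 ⟨z, hz, hzq⟩
  refine (card_le_card h1).trans (card_image_le.trans ?_)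
  -- decoding of the levels
  have hdvd : ∀ t < k, ∀ y : (Fin 3 → ℕ) × (Fin 3 → ℕ),
      LL (fun i => QQ m k (s + 1) (1 + i)) t ∣
        cs m k l (1 + t) w 0 y.1 + cs m k l' t w (oo o' t) y.2 := by
    intro t _ y
    have h0 : LL (fun i => QQ m k (s + 1) (1 + i)) t ∣ LL (QQ m k (s + 1)) (1 + t) := by
      rw [LL_add1]
      exact dvd_mul_left _ _
    refine dvd_add ?_ ?_
    · have h2 := Pool.Agent.Helper48.T5g.cs_dvd m k l (1 + t) w 0 y.1
      rw [hs] at h2
      exact h0.trans ((dvd_mul_left _ _).trans h2)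
    · have h2 := h.cs_lower_dvd hm t w (oo o' t) y.2
      rw [add_comm t 1] at h2
      exact h0.trans ((dvd_mul_left _ _).trans h2)
  have hdec := tower_dec (fun t => Ys m k l (1 + t) ×ˢ Ys m k l' t)
    (fun t y => cs m k l (1 + t) w 0 y.1 + cs m k l' t w (oo o' t) y.2)
    (fun i => QQ m k (s + 1) (1 + i)) (fun _ => 8) k (fun t ht y _ => hdvd t ht y)
    (fun t ht T => dec_level hm h w 0 (oo o' t) ht T) n
  rw [prod_const, card_range] at hdec
  refine le_trans ?_ hdec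
  -- units
  have hU : Un m k l = Jn m k (s + 1) l * LL (QQ m k (s + 1)) (1 + k) := by
    rw [h.Un_upper, h.rL1, add_comm k 1]
  have hU' : Un m k l' = Jn m k (s + 1) l' * LL (QQ m k (s + 1)) (1 + k) := by
    rw [h.Un_lower hm, hr', add_comm k 1]
  have hLd : LL (fun i => QQ m k (s + 1) (1 + i)) k ∣ LL (QQ m k (s + 1)) (1 + k) := by
    rw [LL_add1]
    exact dvd_mul_left _ _
  refine le_trans (Finset.card_le_mul_card_image_of_maps_to
    (f := fun q : (Fin k → (Fin 3 → ℕ) × (Fin 3 → ℕ)) × (ℕ × ℕ) => q.1) ?_ 1 ?_)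
    (le_of_eq (one_mul _))
  · intro q hq
    rw [hS, mem_filter, mem_product] at hq
    obtain ⟨⟨h2, _⟩, h4⟩ := hq
    rw [mem_filter]
    refine ⟨h2, ?_⟩
    have h6 : (Un m k l * q.2.1 + Un m k l' * q.2.2) ≡ 0
        [MOD LL (fun i => QQ m k (s + 1) (1 + i)) k] := by
      refine (Nat.modEq_zero_iff_dvd).2 (dvd_add ?_ ?_)
      · rw [hU]
        exact (hLd.mul_left _).mul_right _
      · rw [hU']
        exact (hLd.mul_left _).mul_right _
    have h7 := (Nat.ModEq.refl (n := LL (fun i => QQ m k (s + 1) (1 + i)) k)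
      (∑ t : Fin k, (cs m k l (1 + t) w 0 (q.1 t).1 + cs m k l' t w (oo o' t) (q.1 t).2))).add h6
    rw [add_zero, h4] at h7
    exact h7.symm
  · intro z _
    rw [card_le_one]
    intro q hq q' hq'
    rw [mem_filter, hS, mem_filter, mem_product, mem_product] at hq hq'
    obtain ⟨⟨⟨_, _, h3⟩, h4⟩, h5⟩ := hq
    obtain ⟨⟨⟨_, _, h3'⟩, h4'⟩, h5'⟩ := hq'
    have hb : ∀ v ∈ Vw m k l' w, Un m k l' * v < Un m k l := by
      intro v hv
      have hv2 : v < 16 * RT m k (bL m k l') := Vw_lt hv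
      exact lt_of_lt_of_le (Nat.mul_lt_mul_of_pos_left hv2
        (Pool.Agent.Helper27.T5g.Un_pos m k l')) hV
    have h6 : Un m k l * q.2.1 + Un m k l' * q.2.2 = Un m k l * q'.2.1 + Un m k l' * q'.2.2 := by
      rw [h5] at h4
      rw [h5'] at h4'
      omega
    have hb1 := hb _ h3
    have hb2 := hb _ h3'
    have hUp := Pool.Agent.Helper27.T5g.Un_pos m k l
    have hUp' := Pool.Agent.Helper27.T5g.Un_pos m k l'
    have h7 : q.2.1 = q'.2.1 := by
      have e1 : (Un m k l * q.2.1 + Un m k l' * q.2.2) / Un m k l = q.2.1 := by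
        rw [Nat.mul_add_div hUp, Nat.div_eq_of_lt hb1, add_zero]
      have e2 : (Un m k l * q'.2.1 + Un m k l' * q'.2.2) / Un m k l = q'.2.1 := by
        rw [Nat.mul_add_div hUp, Nat.div_eq_of_lt hb2, add_zero]
      rw [← e1, ← e2, h6]
    have h8 : q.2.2 = q'.2.2 := by
      rw [h7] at h6
      exact Nat.eq_of_mul_eq_mul_left hUp' (Nat.add_left_cancel h6)
    exact Prod.ext (h5.trans h5'.symm) (Prod.ext h7 h8)

end Pool.Agent.Helper54.T5g
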