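import Pool.Agent.Helper98.S3Pg.Reg
import Pool.Agent.Helper98.S3Pg.Arc
import Pool.Agent.Helper98.S3Pg.Num
import Pool.Agent.Helper54.T5.SplitEnd

/-!
# T5g, (S3'): the probability for fixed outer keys
-/

set_option autoImplicit false

namespace Pool.Agent.Helper54.T5g

open Finset Pool.Agent.Helper27.T4 Pool.Agent.Helper22.HW Pool.Agent.Helper22.SL
  Pool.Agent.Helper3.T5 Pool.Agent.Helper54.T5

variable {ι κ γ : Type*} [Fintype ι] [DecidableEq ι] [DecidableEq κ] {M : MP ι κ} {Mk : κ → ℕ}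

open Classical in
/-- **J7S, structured form**, general bound of the pairs of windows -/
theorem split_far_win2 {δ : Type*} (hM : M.Ok Mk) (hS : M.St) (hMk : ∀ k, 0 < Mk k) {K : Finset κ}
    (hK : ∀ x ∈ M.X, ∀ i, M.key i x ∈ K) (hK' : ∀ x ∈ M.X', ∀ i, M.key' i x ∈ K)
    {Q : ℕ} (hQ : ∀ i, Q.Coprime (M.p i)) (hQ0 : 0 < Q) (Y : Finset γ) (g : γ → ℕ)
    (Y2 : Finset δ) (c2 : δ → ℕ) (B1 B' : Finset ℕ)
    (hc2 : ∀ y ∈ Y2, M.N0 ∣ c2 y) (hB1 : ∀ b ∈ B1, M.N0 * Q ∣ b) (hB' : ∀ b ∈ B', M.N0 * Q ∣ b)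
    (Cd R2 E1 n1 : ℕ)
    (hdec : ∀ T, ((Y2 ×ˢ Y).filter (fun q => c2 q.1 + g q.2 ≡ T [MOD Q])).card ≤ Cd)
    (hR2 : ∀ T, ((B1 ×ˢ B').filter (fun q => q.1 + q.2 = T)).card ≤ R2)
    (hE : ∀ n < n1, ((((Y2 ×ˢ B1).image (fun z => c2 z.1 + z.2)) ×ˢ B').filter
      (fun q => q.1 + q.2 ≤ n ∧ n < q.1 + q.2 + (M.Ne + M.Ne' * Q))).card ≤ E1)
    {ρ : ℝ} (hρ : 0 ≤ ρ)
    (h : E1 * (Y.card * (M.C * M.Lam *
      (min (1 / (Q : ℝ)) ((M.Ne' : ℝ) / M.Ne) + 1 / M.q))) ≤ ρ) (m : ℕ) :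
    PrG Mk K (fun w => ∃ n < n1, 2 * (M.C * (Cd * R2)) * m <
      (((M.X ×ˢ M.X') ×ˢ (Y ×ˢ (((Y2 ×ˢ B1).image (fun z => c2 z.1 + z.2)) ×ˢ B'))).filter
        (fun z => M.cd hM w z.1.1 + cdQ M hM Q g w z.1.2 z.2.1 + (z.2.2.1 + z.2.2.2) = n)).card)
      (n1 * ((M.q : ℝ) ^ 2 * ρ ^ (m + 1))) := by
  refine split_far hM hS hMk hK hK' hQ hQ0 Y g _ B' ?_ ?_ (Cd * R2) E1 n1 ?_ hE hρ h m
  · intro b hb
    rw [mem_image] at hb
    obtain ⟨⟨y, b1⟩, h1, rfl⟩ := hb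
    rw [mem_product] at h1
    exact dvd_add (hc2 y h1.1) ((dvd_mul_right _ _).trans (hB1 b1 h1.2))
  · intro b hb
    exact (dvd_mul_right _ _).trans (hB' b hb)
  · intro r T
    exact leaf_split Y Y2 B1 B' c2 (fun y => crt M.Ne' Q r (g y)) g
      (fun y _ => crt_right (coprime_Ne' hQ) r (g y))
      (fun b hb => (dvd_mul_left _ _).trans (hB1 b hb))
      (fun b hb => (dvd_mul_left _ _).trans (hB' b hb)) hdec hR2 T

end Pool.Agent.Helper54.T5g

namespace Pool.Agent.Helper54.T5g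

open Finset Pool.Agent.Helper27.T4 Pool.Agent.Helper84.T5g Pool.Agent.Helper37.T5g
open Pool.Agent.Helper5.ET (mask bb)
open Pool.Agent.Helper30.T5g (pz QF QT RT ez NL BP)
open Pool.Agent.Helper39.T5 Pool.Agent.Helper50.T5 Pool.Agent.Helper57.T5
open Pool.Agent.Helper3.T5 (MP)
open Pool.Agent.Helper48.T5g (SplitP gS cT)
open Pool.Agent.Helper45.T5g (IsWinB OK)
open Pool.Agent.Helper45.T5 (RegSet)
open Pool.Agent.Helper54.T5 (cdQ)
open Pool.Agent.Helper22.SL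
open Pool.Agent.Helper98.S3Pg (GoodT pairs_near)

variable {m : Sq} {k s l' l : ℕ}

theorem cop_QT_pJ_fix (m : Sq) (k S : ℕ) (i : JF) : (QT m k S).Coprime (pJ k S i) := by
  unfold QT QF
  refine Nat.Coprime.prod_left (fun f _ => Nat.Coprime.pow_left _ ?_)
  rcases i with g | i
  · exact (Pool.Agent.Helper30.T5g.coprime_pr_pz g k S f).symm
  · refine Fin.cases ?_ (fun g => ?_) i
    · exact (Pool.Agent.Helper30.T5g.coprime_buf_pz k S f).symm
    · refine Pool.Agent.Helper30.T5g.coprime_pz (Or.inl ?_)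
      exact Pool.Agent.Helper30.T5g.mod_ne (by omega) (by omega)

/-- the number of a bad event for fixed outer keys -/
noncomputable def bnd4 (m : Sq) (k l' l mm : ℕ) : ℝ :=
  ((34 * NL m k l : ℕ) : ℝ) * (((MSp m k l' l 0 0).q : ℝ) ^ 2 *
    (Real.exp (-((SS m (sL m k l') : ℝ) / 50))) ^ (mm + 1))

theorem E1_nonneg (m : Sq) (k l' l A : ℕ) : 0 ≤ Pool.Agent.Helper98.S3Pg.E1 m k l' l A := by
  unfold Pool.Agent.Helper98.S3Pg.E1 Pool.Agent.Helper98.S3Pg.cap Pool.Agent.Helper98.S3Pg.R0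
  positivity

/-- **fixed outer keys, fixed static keys** -/
theorem s4_fix (hm : m.Ok) (h : SplitP m k s l' l) (hd : SplitDig m k l' l)
    (hl : bb 0 ≤ mL m k l) (hl' : bb 0 ≤ mL m k l')
    (hdb' : ∀ t < rL m k l', 2 * (FF m k l' t * LL (QQ m k (sL m k l')) t) ≤
      FF m k l' (t + 1) * LL (QQ m k (sL m k l')) (t + 1))
    (hNL' : 2 * (FF m k l' (rL m k l') * LL (QQ m k (sL m k l')) (rL m k l')) ≤ NL m k l')
    (hV : Un m k l' * (16 * RT m k (bL m k l')) ≤ Un m k l)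
    (hnum : ∀ o o' : JF → ℕ, ∀ nY : ℕ, (nY : ℝ) ≤ Real.sqrt (QT m k (sL m k l)) →
      Pool.Agent.Helper98.S3Pg.E1 m k l' l
        ((MSp m k l' l o o').Ne + (MSp m k l' l o o').Ne' * QT m k (sL m k l)) *
      (nY * ((MSp m k l' l o o').C * (MSp m k l' l o o').Lam *
        (min (1 / (QT m k (sL m k l) : ℝ)) (((MSp m k l' l o o').Ne' : ℝ) /
          (MSp m k l' l o o').Ne) + 1 / (MSp m k l' l o o').q))) ≤
        Real.exp (-((SS m (sL m k l') : ℝ) / 50)))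
    {K K0 : Finset Key} (hK : keysOf m k l ⊆ K) (hK' : keysOf m k l' ⊆ K)
    (hK0 : ∀ q, q ∈ K0 ↔ q ∈ K ∧ ¬ isMn l' l q) {w0 : Key → ℕ} (hg : GoodT m k l' l w0)
    {o o' : JF → ℕ} (ho : o ∈ OK m k l 0) (ho' : o' ∈ OK m k l' 0)
    (hM : (MSp m k l' l o o').Ok (Mk m k)) (mm : ℕ) :
    PrG (Mk m k) (K \ K0) (fun w => ∃ n < 34 * NL m k l,
      2 * ((MSp m k l' l o o').C * (C3 k * 8 ^ k)) * mm <
        (tup m k s l' l o o' hM (glue K0 w0 w) n).card) (bnd4 m k l' l mm) := by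
  classical
  have hr : 0 < rL m k l := by
    rw [h.rL1]
    omega
  have hs : sL m k l = s + 1 := h.s1
  have hs' : sL m k l' = s := h.s'
  have hne : l' ≠ l := hd.ll.ne
  have ho1 : ∀ j, o j < Bd m k l := by
    unfold OK at ho
    rw [mem_image] at ho
    obtain ⟨x, hx, rfl⟩ := ho
    exact fun j => okey_lt hm hl hx 0 j
  have ho2 : ∀ j, o' j < Bd m k l' := by
    unfold OK at ho'
    rw [mem_image] at ho'
    obtain ⟨x, hx, rfl⟩ := ho'
    exact fun j => okey_lt hm hl' hx 0 j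
  have hJ1 : Jn m k (sL m k l') l' = Jn m k (s + 1) l' * QT m k (s + 1) := by
    have h1 := (h.win l' le_rfl (h.le.trans (Nat.le_add_right _ _))).Jn_split hm
    rw [hs']
    exact h1
  have hN0 : (MSp m k l' l o o').N0 = Jn m k (sL m k l) l' := rfl
  -- the pairs of windows
  obtain ⟨A, hA⟩ : ∃ A, A = (MSp m k l' l o o').Ne + (MSp m k l' l o o').Ne' *
    QT m k (sL m k l) := ⟨_, rfl⟩
  obtain ⟨E1, hE1⟩ : ∃ E1 : ℕ, E1 = ⌊Pool.Agent.Helper98.S3Pg.E1 m k l' l A⌋₊ := ⟨_, rfl⟩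
  have hpairs : ∀ n, ((ZU m k l w0 o ×ˢ Zo m k l' 0 w0 o').filter (fun q => q.1 + q.2 ≤ n ∧
      n < q.1 + q.2 + A)).card ≤ E1 := by
    intro n
    have h0 := pairs_near hm hl' hdb' hNL' hg ho ho' A n
    rw [hE1]
    exact Nat.le_floor h0
  have hYn := card_Yn hm h
  rw [← hs] at hYn
  have hρ : (E1 : ℝ) * (((Yn m k l').card : ℝ) *
      ((MSp m k l' l o o').C * (MSp m k l' l o o').Lam *
        (min (1 / (QT m k (sL m k l) : ℝ)) (((MSp m k l' l o o').Ne' : ℝ) /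
          (MSp m k l' l o o').Ne) + 1 / (MSp m k l' l o o').q))) ≤
      Real.exp (-((SS m (sL m k l') : ℝ) / 50)) := by
    refine le_trans ?_ (hnum o o' (Yn m k l').card hYn)
    rw [← hA, hE1]
    refine mul_le_mul_of_nonneg_right (Nat.floor_le (E1_nonneg _ _ _ _ _)) ?_
    have h1 : (0 : ℝ) ≤ min (1 / (QT m k (sL m k l) : ℝ)) (((MSp m k l' l o o').Ne' : ℝ) /
          (MSp m k l' l o o').Ne) := le_min (one_div_nonneg.2 (Nat.cast_nonneg _))
      (div_nonneg (Nat.cast_nonneg _) (Nat.cast_nonneg _))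
    exact mul_nonneg (Nat.cast_nonneg _) (mul_nonneg (mul_nonneg (Nat.cast_nonneg _)
      (Nat.cast_nonneg _)) (add_nonneg h1 (one_div_nonneg.2 (Nat.cast_nonneg _))))
  have hkey : ∀ x ∈ (MSp m k l' l o o').X, ∀ i, (MSp m k l' l o o').key i x ∈ K \ K0 := by
    intro x hx i
    rw [mem_sdiff, hK0]
    refine ⟨hK ?_, fun h1 => h1.2 (isMn_key i x)⟩
    exact J_mem (maskJ_lt (Bd_pos m k l) (fun j => XJ_lt hm hl (mem_filter.1 hx).1 j))
  have hkey' : ∀ x ∈ (MSp m k l' l o o').X', ∀ i, (MSp m k l' l o o').key' i x ∈ K \ K0 := by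
    intro x hx i
    rw [mem_sdiff, hK0]
    refine ⟨hK' ?_, fun h1 => h1.2 (isMn_key' i x)⟩
    change x ∈ ((XJ m k l').filter (fun x => okey m k l' 0 x = o')).image lowJ at hx
    rw [mem_image] at hx
    obtain ⟨z, hz, rfl⟩ := hx
    have hz1 : ∀ j, lowJ z j < Bd m k l' := by
      have h2 : 1 < Bd m k l' := by
        unfold Bd
        omega
      intro j
      rcases j with f | j
      · exact XJ_lt hm hl' (mem_filter.1 hz).1 (Sum.inl f)
      · refine Fin.cases ?_ (fun f => ?_) j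
        · exact XJ_lt hm hl' (mem_filter.1 hz).1 (Sum.inr 0)
        · exact h2
    rcases i with f | i
    · exact J_mem (maskJ_lt (Bd_pos m k l') hz1)
    · exact J_mem (fun _ => Bd_pos m k l')
  have hfar := split_far_win2 (K := K \ K0) hM (MSp_st hd)
    (Pool.Agent.Helper84.T5g.Mk_pos m k) hkey hkey' (cop_QT_pJ_fix m k (sL m k l))
    (Pool.Agent.Helper30.T5g.QT_pos m k (sL m k l)) (Yn m k l') (gS m k s l' w0)
    (Ys m k l 0) (cs m k l 0 w0 o) (Zo m k l 1 w0 0) (Zo m k l' 0 w0 o')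
    (fun y _ => by
      rw [hN0]
      have h1 := Pool.Agent.Helper48.T5g.cs_dvd m k l 0 w0 o y
      rw [LL_zero, mul_one] at h1
      refine dvd_trans ?_ h1
      exact Pool.Agent.Helper48.T5g.Jn_dvd m k _
        (hd.ll.le.trans (Pool.Agent.Helper48.T5g.lt_ef hm l 1).le))
    (fun b hb => by
      rw [hN0]
      have h1 := dvd_Zo hm (show 1 ≤ rL m k l by omega) hb
      have h2 : LL (QQ m k (sL m k l)) 1 = QT m k (sL m k l) := by
        rw [LL_succ, LL_zero, one_mul]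
        rfl
      rw [h2] at h1
      exact (Nat.mul_dvd_mul_right (Pool.Agent.Helper48.T5g.Jn_dvd m k _ hd.ll.le) _).trans h1)
    (fun b hb => by
      rw [hN0]
      have h1 := dvd_Zo hm (Nat.zero_le _) hb
      rw [LL_zero, mul_one, hJ1] at h1
      rw [hs]
      exact h1)
    (C3 k) (8 ^ k) E1 (34 * NL m k l)
    (fun T => by
      have h1 := dec_new hm h w0 o T
      rw [hs]
      exact h1)
    (fun T => leaf_Zo hm h w0 o' hV T)
    (fun n _ => by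
      rw [← hA]
      exact hpairs n)
    (ρ := Real.exp (-((SS m (sL m k l') : ℝ) / 50))) (by positivity) hρ mm
  refine PrG_mono ?_ (le_of_eq ?_) hfar
  · intro r _ hB
    obtain ⟨n, hn, hc⟩ := hB
    refine ⟨n, hn, lt_of_lt_of_le hc (le_of_eq ?_)⟩
    rw [tup_glue hm hl hl' ho1 ho2 hr hne hM (w := glue K0 w0 (ext (K \ K0) r)) (w0 := w0)
      (w1 := ext (K \ K0) r) ?_ ?_ n]
    · rfl
    · intro q hq hq1
      refine glue_mem _ _ _ ((hK0 q).2 ⟨?_, hq1⟩)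
      rcases hq with hq | hq
      · exact hK hq
      · exact hK' hq
    · intro q hq
      exact glue_not_mem _ _ _ (fun h1 => ((hK0 q).1 h1).2 hq)
  · unfold bnd4
    rfl

/-- **the union over the outer keys** -/
theorem s4_all (hm : m.Ok) (h : SplitP m k s l' l) (hd : SplitDig m k l' l)
    (hk : ¬ keyed m k (mL m k l'))
    (hl : bb 0 ≤ mL m k l) (hl' : bb 0 ≤ mL m k l')
    (hdb' : ∀ t < rL m k l', 2 * (FF m k l' t * LL (QQ m k (sL m k l')) t) ≤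
      FF m k l' (t + 1) * LL (QQ m k (sL m k l')) (t + 1))
    (hNL' : 2 * (FF m k l' (rL m k l') * LL (QQ m k (sL m k l')) (rL m k l')) ≤ NL m k l')
    (hV : Un m k l' * (16 * RT m k (bL m k l')) ≤ Un m k l)
    (hnum : ∀ o o' : JF → ℕ, ∀ nY : ℕ, (nY : ℝ) ≤ Real.sqrt (QT m k (sL m k l)) →
      Pool.Agent.Helper98.S3Pg.E1 m k l' l
        ((MSp m k l' l o o').Ne + (MSp m k l' l o o').Ne' * QT m k (sL m k l)) *
      (nY * ((MSp m k l' l o o').C * (MSp m k l' l o o').Lam *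
        (min (1 / (QT m k (sL m k l) : ℝ)) (((MSp m k l' l o o').Ne' : ℝ) /
          (MSp m k l' l o o').Ne) + 1 / (MSp m k l' l o o').q))) ≤
        Real.exp (-((SS m (sL m k l') : ℝ) / 50)))
    (hrg : ∀ (w : Key → ℕ) (n : ℕ), 0 < Rp m k l l' w n → n < 34 * NL m k l)
    {K : Finset Key} (hK : keysOf m k l ⊆ K) (hK' : keysOf m k l' ⊆ K) {δ : ℝ}
    (hreg : PrG (Mk m k) K (fun w => ¬ GoodT m k l' l w) δ) (mm : ℕ) :
    PrG (Mk m k) K (fun w => ∃ n, 2 * 1000038 *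
      (2 * ((MSp m k l' l 0 0).C * (C3 k * 8 ^ k)) * mm) < Rp m k l l' w n)
      (δ + ((OK m k l 0).card * (OK m k l' 0).card : ℕ) * bnd4 m k l' l mm) := by
  classical
  have hr : 0 < rL m k l := by
    rw [h.rL1]
    omega
  obtain ⟨K0, hK0e⟩ : ∃ K0 : Finset Key, K0 = K.filter (fun q => ¬ isMn l' l q) := ⟨_, rfl⟩
  have hK0 : ∀ q, q ∈ K0 ↔ q ∈ K ∧ ¬ isMn l' l q := by
    intro q
    rw [hK0e, mem_filter]
  have hsub : K0 ⊆ K := fun q hq => ((hK0 q).1 hq).1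
  have hb0 : 0 ≤ bnd4 m k l' l mm := by
    unfold bnd4
    positivity
  have hdep : DepOn K0 (fun w => ¬ GoodT m k l' l w) := by
    intro w w' hw
    have hag : ∀ q, q ∈ keysOf m k l ∨ q ∈ keysOf m k l' → ¬ isMn l' l q → w q = w' q :=
      fun q hq hq1 => hw q ((hK0 q).2 ⟨hq.elim (fun h1 => hK h1) (fun h1 => hK' h1), hq1⟩)
    show (¬ GoodT m k l' l w) ↔ ¬ GoodT m k l' l w'
    rw [not_iff_not]
    exact ⟨Pool.Agent.Helper98.S3Pg.goodT_congr hm hl hl' hr (P := fun q => ¬ isMn l' l q) hag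
      (fun _ _ _ _ _ h => h) (fun _ _ _ h => h),
      Pool.Agent.Helper98.S3Pg.goodT_congr hm hl hl' hr (P := fun q => ¬ isMn l' l q)
        (fun q hq hq1 => (hag q hq hq1).symm) (fun _ _ _ _ _ h => h) (fun _ _ _ h => h)⟩
  have hreg0 : PrG (Mk m k) K0 (fun w => ¬ GoodT m k l' l w) δ :=
    (PrG_dep_iff (Pool.Agent.Helper84.T5g.Mk_pos m k) hsub hdep).1 hreg
  refine PrG_cond_bad hsub (mul_nonneg (Nat.cast_nonneg _) hb0) hreg0 (fun r0 _ hgood => ?_)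
  rw [not_not] at hgood
  have hM : ∀ o o' : JF → ℕ, (MSp m k l' l o o').Ok (Mk m k) := fun o o' => MSp_ok hd
  have hun := PrG_exists (Mk := Mk m k) (K := K \ K0) (OK m k l 0 ×ˢ OK m k l' 0)
    (B := fun q w => ∃ n < 34 * NL m k l,
      2 * ((MSp m k l' l q.1 q.2).C * (C3 k * 8 ^ k)) * mm <
        (tup m k s l' l q.1 q.2 (hM q.1 q.2) (glue K0 (ext K0 r0) w) n).card)
    (ε := fun _ => bnd4 m k l' l mm) (fun q hq => by
      rw [mem_product] at hq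
      exact s4_fix hm h hd hl hl' hdb' hNL' hV hnum hK hK' hK0 hgood hq.1 hq.2 (hM q.1 q.2) mm)
  refine PrG_mono ?_ (le_of_eq ?_) hun
  · intro r _ hB
    obtain ⟨n, hn⟩ := hB
    have hn1 : n < 34 * NL m k l := hrg _ n (lt_of_le_of_lt (Nat.zero_le _) hn)
    by_contra hcon
    push Not at hcon
    have h1 := Rp_le_tup hm h hd hk (glue K0 (ext K0 r0) (ext (K \ K0) r)) n
      (2 * ((MSp m k l' l 0 0).C * (C3 k * 8 ^ k)) * mm) hM (fun o ho o' ho' =>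
        hcon (o, o') (mem_product.2 ⟨ho, ho'⟩) n hn1)
    exact absurd hn (not_lt.2 h1)
  · rw [sum_const, card_product, nsmul_eq_mul]

end Pool.Agent.Helper54.T5g
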